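import Pool.Agent.TH.CC

/-!
# The asymptotic analysis of the refined bound

`ana`: `μ = m^(1/(e-1))`, so `m = μ^(e-1)`.  Choose a large real `Λ ≥ 1` with `(e + e²)/Λ ≤ δ/8`, then `η > 0` with
`e³ η (2Λ)^(e-3) ≤ δ/8`, and `L = ⌈Λ μ⌉`, `s = ⌈√L⌉` (e.g. `Nat.sqrt L + 1`), `ε = ⌊η μ⌋` (`s ≤ ε` for large `m`),
`R = ⌈((e-1)! m / e)^(1/(e-1))⌉`.
* `(e + e²) m / L ≤ (e + e²) μ^(e-2) / Λ`;
* `e³ (ε + 1) L^(e-3) ≤ e³ (η μ + 1) (2 Λ μ)^(e-3)` `≤ (δ/8 + o(1)) μ^(e-2)`;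
* `e C(e-1+R, e-1) ≥ e R^(e-1)/(e-1)! ≥ m`, so the last product is `≤ 0`, and
  `e C(e-1+R-1, e-2) ≤ e (R+e)^(e-2)/(e-2)!`, `(R + e)/μ → ((e-1)!/e)^(1/(e-1))`, so it is `≤ (cc e + δ/4) μ^(e-2)` for large `m`.
-/

namespace Pool.Agent.TH

open Filter Topology

theorem ana {e : ℕ} (he : 4 ≤ e) {δ : ℝ} (hδ : 0 < δ) :
    ∀ᶠ m : ℕ in atTop, ∃ L s ε R : ℕ, 1 ≤ L ∧ L ≤ s * s ∧ s ≤ ε ∧
      ((e : ℝ) + (e : ℝ) ^ 2) * (m : ℝ) / (L : ℝ) +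
      (e : ℝ) ^ 3 * ((ε : ℝ) + 1) * (L : ℝ) ^ (e - 3) +
      ((e : ℝ) * ((e - 1 + R - 1).choose (e - 2) : ℝ) + ((e : ℝ) - 2) / ((R : ℝ) + (e : ℝ) - 1) *
        ((m : ℝ) - (e : ℝ) * ((e - 1 + R).choose (e - 1) : ℝ))) ≤
      (cc e + δ) * (m : ℝ) ^ (((e : ℝ) - 2) / ((e : ℝ) - 1)) := by
  obtain ⟨E, hE⟩ : ∃ E : ℝ, E = (e : ℝ) := ⟨_, rfl⟩
  have hE4 : 4 ≤ E := by rw [hE]; exact_mod_cast he
  have hE0 : 0 < E := by linarith
  have c1 : ((e - 1 : ℕ) : ℝ) = E - 1 := by rw [Nat.cast_sub (by omega), hE]; simp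
  have c2 : ((e - 2 : ℕ) : ℝ) = E - 2 := by rw [Nat.cast_sub (by omega), hE]; simp
  obtain ⟨Λ, hΛ⟩ : ∃ Λ : ℝ, Λ = 8 * (E + E ^ 2) / δ + 1 := ⟨_, rfl⟩
  have hΛ1 : 1 ≤ Λ := by
    rw [hΛ]
    have : 0 ≤ 8 * (E + E ^ 2) / δ := by positivity
    linarith
  have hΛ0 : 0 < Λ := by linarith
  have hΛ2 : (E + E ^ 2) / Λ ≤ δ / 8 := by
    rw [div_le_iff₀ hΛ0, hΛ]
    have : δ / 8 * (8 * (E + E ^ 2) / δ + 1) = (E + E ^ 2) + δ / 8 := by
      field_simp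
    rw [this]
    linarith
  obtain ⟨Q, hQ⟩ : ∃ Q : ℝ, Q = E ^ 3 * (2 * Λ) ^ (e - 3) := ⟨_, rfl⟩
  have hQ0 : 0 < Q := by rw [hQ]; positivity
  obtain ⟨η, hη⟩ : ∃ η : ℝ, η = δ / (8 * Q) := ⟨_, rfl⟩
  have hη0 : 0 < η := by rw [hη]; positivity
  have hηQ : Q * η = δ / 8 := by rw [hη]; field_simp
  obtain ⟨c0, hc0⟩ : ∃ c : ℝ, c = (((e - 1).factorial : ℝ) / E) ^ (1 / (E - 1)) := ⟨_, rfl⟩
  have hfac : 0 < ((e - 1).factorial : ℝ) := by exact_mod_cast Nat.factorial_pos _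
  have hfac2 : 0 < ((e - 2).factorial : ℝ) := by exact_mod_cast Nat.factorial_pos _
  have hbase : 0 < ((e - 1).factorial : ℝ) / E := by positivity
  have hc00 : 0 < c0 := by rw [hc0]; positivity
  have hE1 : E - 1 ≠ 0 := by linarith
  have hc0p : c0 ^ (e - 1) = ((e - 1).factorial : ℝ) / E := by
    rw [hc0, ← Real.rpow_natCast, ← Real.rpow_mul hbase.le, c1, one_div, inv_mul_cancel₀ hE1,
      Real.rpow_one]
  have hc0q : E / ((e - 2).factorial : ℝ) * c0 ^ (e - 2) = cc e := by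
    unfold cc
    rw [hc0, ← Real.rpow_natCast, ← Real.rpow_mul hbase.le, c2, ← hE,
      show 1 / (E - 1) * (E - 2) = (E - 2) / (E - 1) by ring]
    ring
  -- eventual conditions
  have ev4 : ∀ᶠ μ : ℝ in atTop,
      E / ((e - 2).factorial : ℝ) * (c0 + (1 + E) / μ) ^ (e - 2) ≤ cc e + δ / 4 := by
    have h1 : Tendsto (fun μ : ℝ => (1 + E) / μ) atTop (𝓝 0) := tendsto_const_nhds.div_atTop tendsto_id
    have h2 : Tendsto (fun μ : ℝ => E / ((e - 2).factorial : ℝ) * (c0 + (1 + E) / μ) ^ (e - 2))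
        atTop (𝓝 (E / ((e - 2).factorial : ℝ) * (c0 + 0) ^ (e - 2))) :=
      ((tendsto_const_nhds.add h1).pow _).const_mul _
    rw [add_zero, hc0q] at h2
    exact h2.eventually_le_const (by linarith)
  have ev3 : ∀ᶠ μ : ℝ in atTop, Real.sqrt (2 * Λ * μ) + 2 ≤ η * μ := by
    have h1 : ∀ᶠ μ : ℝ in atTop, max (4 / η) (8 * Λ / η ^ 2) ≤ μ := eventually_ge_atTop _
    filter_upwards [h1, eventually_gt_atTop (0 : ℝ)] with μ hμ hμ0
    have h2 : 4 / η ≤ μ := (le_max_left _ _).trans hμ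
    have h3 : 8 * Λ / η ^ 2 ≤ μ := (le_max_right _ _).trans hμ
    rw [div_le_iff₀ hη0] at h2
    rw [div_le_iff₀ (by positivity)] at h3
    have h4 : Real.sqrt (2 * Λ * μ) ≤ η * μ / 2 := by
      rw [Real.sqrt_le_left (by positivity)]
      have h5 := mul_le_mul_of_nonneg_right h3 hμ0.le
      have h6 : (η * μ / 2) ^ 2 = μ * η ^ 2 * μ / 4 := by ring
      rw [h6]
      linarith
    linarith
  have hμt : Tendsto (fun m : ℕ => (m : ℝ) ^ (1 / (E - 1))) atTop atTop :=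
    (tendsto_rpow_atTop (by
      have : 0 < E - 1 := by linarith
      positivity)).comp tendsto_natCast_atTop_atTop
  have hev := hμt.eventually ((eventually_ge_atTop (1 : ℝ)).and
    ((eventually_ge_atTop (8 * Q / δ)).and (ev3.and ev4)))
  filter_upwards [hev] with m hm
  obtain ⟨μ, hμ⟩ : ∃ μ : ℝ, μ = (m : ℝ) ^ (1 / (E - 1)) := ⟨_, rfl⟩
  rw [← hμ] at hm
  obtain ⟨m1, m2, m3, m4⟩ := hm
  have hμ0 : 0 < μ := by linarith
  have hm0 : (0 : ℝ) ≤ m := Nat.cast_nonneg m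
  have hmμ : (m : ℝ) = μ ^ (e - 1) := by
    rw [hμ, ← Real.rpow_natCast, ← Real.rpow_mul hm0, c1, one_div, inv_mul_cancel₀ hE1,
      Real.rpow_one]
  have hmα : (m : ℝ) ^ ((E - 2) / (E - 1)) = μ ^ (e - 2) := by
    rw [hμ, ← Real.rpow_natCast, ← Real.rpow_mul hm0, c2]
    congr 1
    ring
  have hpow : μ ^ (e - 1) = μ ^ (e - 2) * μ := by
    rw [← pow_succ]
    congr 1
    omega
  have hpow' : μ ^ (e - 2) = μ ^ (e - 3) * μ := by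
    rw [← pow_succ]
    congr 1
    omega
  rw [div_le_iff₀ hδ] at m2
  have hL1 : 1 ≤ ⌈Λ * μ⌉₊ := Nat.one_le_iff_ne_zero.2 (Nat.ceil_pos.2 (by positivity)).ne'
  have hLle : (⌈Λ * μ⌉₊ : ℝ) ≤ 2 * Λ * μ := by
    have h1 := Nat.ceil_lt_add_one (show 0 ≤ Λ * μ by positivity)
    have h2 : 1 ≤ Λ * μ := by
      calc (1 : ℝ) = 1 * 1 := (one_mul _).symm
        _ ≤ Λ * μ := mul_le_mul hΛ1 m1 zero_le_one hΛ0.le
    linarith
  have hLge : Λ * μ ≤ (⌈Λ * μ⌉₊ : ℝ) := Nat.le_ceil _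
  refine ⟨⌈Λ * μ⌉₊, Nat.sqrt ⌈Λ * μ⌉₊ + 1, ⌊η * μ⌋₊, ⌈c0 * μ⌉₊, hL1, ?_, ?_, ?_⟩
  · exact (Nat.lt_succ_sqrt _).le
  · apply Nat.le_floor
    push_cast
    have h1 : (Nat.sqrt ⌈Λ * μ⌉₊ : ℝ) ≤ Real.sqrt (2 * Λ * μ) := by
      apply Real.le_sqrt_of_sq_le
      refine le_trans ?_ hLle
      have h2 := Nat.sqrt_le' ⌈Λ * μ⌉₊
      exact_mod_cast h2
    linarith
  · rw [← hE, hmα]
    have hμp : 0 < μ ^ (e - 2) := by positivity
    have hμp3 : 0 < μ ^ (e - 3) := by positivity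
    -- first term
    have t1 : (E + E ^ 2) * (m : ℝ) / (⌈Λ * μ⌉₊ : ℝ) ≤ δ / 8 * μ ^ (e - 2) := by
      calc (E + E ^ 2) * (m : ℝ) / (⌈Λ * μ⌉₊ : ℝ) ≤ (E + E ^ 2) * (m : ℝ) / (Λ * μ) :=
            div_le_div_of_nonneg_left (by positivity) (by positivity) hLge
        _ = (E + E ^ 2) / Λ * μ ^ (e - 2) := by
            rw [hmμ, hpow]
            field_simp
        _ ≤ _ := mul_le_mul_of_nonneg_right hΛ2 hμp.le
    -- second term
    have t2 : E ^ 3 * ((⌊η * μ⌋₊ : ℝ) + 1) * (⌈Λ * μ⌉₊ : ℝ) ^ (e - 3) ≤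
        (δ / 8 + δ / 8) * μ ^ (e - 2) := by
      have h1 : (⌊η * μ⌋₊ : ℝ) ≤ η * μ := Nat.floor_le (by positivity)
      calc E ^ 3 * ((⌊η * μ⌋₊ : ℝ) + 1) * (⌈Λ * μ⌉₊ : ℝ) ^ (e - 3)
          ≤ E ^ 3 * (η * μ + 1) * (2 * Λ * μ) ^ (e - 3) := by gcongr
        _ = Q * η * (μ ^ (e - 3) * μ) + Q * μ ^ (e - 3) := by
            rw [hQ, mul_pow (2 * Λ) μ]
            ring
        _ ≤ δ / 8 * (μ ^ (e - 3) * μ) + δ / 8 * (μ ^ (e - 3) * μ) := by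
            rw [hηQ]
            have h2 : Q ≤ δ / 8 * μ := by linarith
            have h3 := mul_le_mul_of_nonneg_right h2 hμp3.le
            have h4 : δ / 8 * μ * μ ^ (e - 3) = δ / 8 * (μ ^ (e - 3) * μ) := by ring
            rw [h4] at h3
            linarith
        _ = _ := by rw [hpow']; ring
    -- third term
    have hRge : c0 * μ ≤ (⌈c0 * μ⌉₊ : ℝ) := Nat.le_ceil _
    have hRle : (⌈c0 * μ⌉₊ : ℝ) ≤ c0 * μ + 1 := (Nat.ceil_lt_add_one (by positivity)).le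
    obtain ⟨R, hR⟩ : ∃ R, R = ⌈c0 * μ⌉₊ := ⟨_, rfl⟩
    rw [← hR] at hRge hRle ⊢
    have t3 : (m : ℝ) - E * ((e - 1 + R).choose (e - 1) : ℝ) ≤ 0 := by
      have h1 := Nat.pow_le_choose (α := ℝ) (e - 1) (e - 1 + R)
      have h2 : e - 1 + R + 1 - (e - 1) = R + 1 := by omega
      rw [h2, div_le_iff₀ hfac] at h1
      have h3 : (R : ℝ) ^ (e - 1) ≤ ((R + 1 : ℕ) : ℝ) ^ (e - 1) :=
        pow_le_pow_left₀ (Nat.cast_nonneg _) (by push_cast; linarith) _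
      have h4 : (c0 * μ) ^ (e - 1) ≤ (R : ℝ) ^ (e - 1) :=
        pow_le_pow_left₀ (by positivity) hRge _
      rw [mul_pow, hc0p, ← hmμ] at h4
      have h5 : ((e - 1).factorial : ℝ) / E * (m : ℝ) ≤
          ((e - 1).factorial : ℝ) * ((e - 1 + R).choose (e - 1) : ℝ) :=
        h4.trans (h3.trans (by rw [mul_comm]; exact h1))
      have h6 : ((e - 1).factorial : ℝ) / E * (m : ℝ) = ((e - 1).factorial : ℝ) * ((m : ℝ) / E) := by
        ring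
      rw [h6] at h5
      have h7 := le_of_mul_le_mul_left h5 hfac
      rw [div_le_iff₀ hE0] at h7
      linarith
    have t4 : (E - 2) / ((R : ℝ) + E - 1) * ((m : ℝ) - E * ((e - 1 + R).choose (e - 1) : ℝ)) ≤ 0 := by
      refine mul_nonpos_of_nonneg_of_nonpos ?_ t3
      have : (0 : ℝ) ≤ R := Nat.cast_nonneg _
      exact div_nonneg (by linarith) (by linarith)
    have t5 : E * ((e - 1 + R - 1).choose (e - 2) : ℝ) ≤ (cc e + δ / 4) * μ ^ (e - 2) := by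
      have h1 := Nat.choose_le_pow_div (α := ℝ) (e - 2) (e - 1 + R - 1)
      have h2 : ((e - 1 + R - 1 : ℕ) : ℝ) = E - 2 + R := by
        have : e - 1 + R - 1 = (e - 2) + R := by omega
        rw [this, Nat.cast_add, c2]
      rw [h2] at h1
      have h3 : (E - 2 + R) ^ (e - 2) ≤ (μ * (c0 + (1 + E) / μ)) ^ (e - 2) := by
        refine pow_le_pow_left₀ ?_ ?_ _
        · have : (0 : ℝ) ≤ R := Nat.cast_nonneg _
          linarith
        · have h4 : μ * (c0 + (1 + E) / μ) = c0 * μ + (1 + E) := by field_simp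
          rw [h4]
          linarith
      rw [mul_pow] at h3
      calc E * ((e - 1 + R - 1).choose (e - 2) : ℝ)
          ≤ E * ((E - 2 + R) ^ (e - 2) / ((e - 2).factorial : ℝ)) :=
            mul_le_mul_of_nonneg_left h1 hE0.le
        _ ≤ E * ((μ ^ (e - 2) * (c0 + (1 + E) / μ) ^ (e - 2)) / ((e - 2).factorial : ℝ)) := by
            gcongr
        _ = (E / ((e - 2).factorial : ℝ) * (c0 + (1 + E) / μ) ^ (e - 2)) * μ ^ (e - 2) := by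
            ring
        _ ≤ _ := mul_le_mul_of_nonneg_right m4 hμp.le
    have t6 : (cc e + δ) * μ ^ (e - 2) = (cc e + δ / 4) * μ ^ (e - 2) + (δ / 8 + δ / 8) * μ ^ (e - 2) +
        δ / 8 * μ ^ (e - 2) + 3 * (δ / 8 * μ ^ (e - 2)) := by ring
    have t7 : 0 < δ / 8 * μ ^ (e - 2) := by positivity
    rw [t6]
    linarith

end Pool.Agent.TH
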