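import Pool.Agent.TH.TypeLe
import Pool.Agent.TH.Ana
import Pool.Agent.T3.Main

/-!
# The asymptotic upper bound

`asym`: for every `δ > 0` and all large `m`: `T e m ≤ (cc e + δ) m^((e-2)/(e-1))`.  `e = 3`: `T 3 m ≤ 2 √m` (`T3_eq`) and `cc_ge`.
`e ≥ 4`: `type_le2` and `ana` (`T` is a `sSup` of natural numbers, so `csSup_le` or attained; the empty case is `T = 0`).

`eventually_le`: for all large `m`: `T e m ≤ 3 m^((e-2)/(e-1))`, from `cc_lt` with `δ = 3 - cc e`.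
-/

namespace Pool.Agent.TH

open Pool.Agent.Hhelper4.NS Filter Topology

private theorem asym_cc_nonneg {e : ℕ} : 0 ≤ cc e := by
  unfold cc
  positivity

theorem asym {e : ℕ} (he : 3 ≤ e) {δ : ℝ} (hδ : 0 < δ) :
    ∀ᶠ m : ℕ in atTop, (T e m : ℝ) ≤ (cc e + δ) * (m : ℝ) ^ (((e : ℝ) - 2) / ((e : ℝ) - 1)) := by
  rcases he.eq_or_lt with h3 | h4
  · subst h3
    filter_upwards [eventually_ge_atTop 4] with m hm
    have h1 := Pool.Agent.T3.T3_eq m hm
    have h2 : (T 3 m : ℝ) ≤ (Nat.sqrt (4 * m) : ℝ) := by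
      rw [h1]
      exact_mod_cast Nat.sub_le _ _
    have h5 : (Nat.sqrt (4 * m) : ℝ) ≤ 2 * Real.sqrt m := by
      have h6 : (Nat.sqrt (4 * m) : ℝ) ≤ Real.sqrt ((4 * m : ℕ) : ℝ) := Real.nat_sqrt_le_real_sqrt
      have h7 : Real.sqrt ((4 * m : ℕ) : ℝ) = 2 * Real.sqrt m := by
        push_cast
        rw [Real.sqrt_mul (by norm_num), show (4 : ℝ) = 2 ^ 2 by norm_num,
          Real.sqrt_sq (by norm_num)]
      rw [h7] at h6
      exact h6
    have h8 : (((3 : ℕ) : ℝ) - 2) / (((3 : ℕ) : ℝ) - 1) = 1 / 2 := by norm_num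
    rw [h8, ← Real.sqrt_eq_rpow]
    have h9 : (2 : ℝ) ≤ cc 3 + δ := by linarith [cc_ge]
    exact (h2.trans h5).trans (mul_le_mul_of_nonneg_right h9 (Real.sqrt_nonneg _))
  · filter_upwards [ana (show 4 ≤ e from h4) hδ, eventually_ge_atTop 1] with m hm hm1
    obtain ⟨L, s, ε, R, hL1, hL, hs, hle⟩ := hm
    set X : ℝ := (cc e + δ) * (m : ℝ) ^ (((e : ℝ) - 2) / ((e : ℝ) - 1)) with hX
    have hX0 : 0 ≤ X := by
      have := asym_cc_nonneg (e := e)
      positivity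
    have hub : ∀ t ∈ {t | ∃ Γ : AddSubmonoid ℕ, IsNumerical Γ ∧ edim Γ = e + 1 ∧ mult Γ = m ∧
        type Γ = t}, (t : ℝ) ≤ X := by
      rintro t ⟨Γ, g1, g2, g3, rfl⟩
      exact (type_le2 (show 4 ≤ e from h4) g1 g2 g3 hm1 hL1 hL hs R).trans hle
    unfold T
    set A := {t | ∃ Γ : AddSubmonoid ℕ, IsNumerical Γ ∧ edim Γ = e + 1 ∧ mult Γ = m ∧
        type Γ = t} with hA
    rcases A.eq_empty_or_nonempty with h0 | h0
    · rw [h0]
      simpa using hX0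
    · have hb : BddAbove A := by
        refine ⟨⌊X⌋₊, fun t ht => ?_⟩
        exact Nat.le_floor (hub t ht)
      exact hub _ (Nat.sSup_mem h0 hb)

theorem eventually_le {e : ℕ} (he : 3 ≤ e) :
    ∀ᶠ m : ℕ in atTop, (T e m : ℝ) ≤ 3 * (m : ℝ) ^ (((e : ℝ) - 2) / ((e : ℝ) - 1)) := by
  have h := asym he (sub_pos.2 (cc_lt he))
  have h1 : cc e + (3 - cc e) = 3 := by ring
  rw [h1] at h
  exact h

end Pool.Agent.TH
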