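import Pool.Agent.TH.Defs

/-!
# Basic facts

* `mx_anti`: comparable maximal elements are equal (`p ≤ q`, `p ≠ q` gives `p + e_i ≤ q` for some `i`).
* `bl_mono`: let `p, q ∈ Mx P`, `Bl P i j p` and `p k ≤ q k` for all `k ≠ i, j`.  Then `q i ≤ p i`: let `g` be the blocking element:
  `g i ≤ p i + 1`, `g j = 0`, `g k ≤ p k` otherwise; if `q i ≥ p i + 1`, then `g ≤ q ∈ P`, contradiction.
* `bl_eq`: if `p, q ∈ Mx P`, both blocked (`Bl P i j`), and they agree outside `i, j`, then `p = q` (`bl_mono` twice gives `p i = q i`;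
  then comparable).
* `bl_or`: `OneFull P`; for `p ∈ Mx P` and every `i` either `Bl P i j p` for some `j`, or there is a full-support `F ∉ P`
  with all `F - e_k ∈ P`, `F ≤ p + e_i` and `F i = p i + 1`.
  (Take a minimal `g ≤ p + e_i` outside `P`, e.g. of minimal coordinate sum; `g i = p i + 1` because otherwise `g ≤ p`; if `g j = 0` for some `j`
  (then `j ≠ i`) we have `Bl`; otherwise `g` has full support, and `g - e_k ∈ P` by minimality.)
* `bl_one`: if `i ≠ i'`, then `Bl P i j p` for some `j` or `Bl P i' j p` for some `j`: otherwise by `bl_or` and `OneFull` the same `F` works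
  for both; `F i' ≤ (p + e_i) i' = p i'` but `F i' = p i' + 1`.
-/

namespace Pool.Agent.TH

open Finset

theorem add_single_le {e : ℕ} {p q : Fin e → ℕ} {i : Fin e} (h : p ≤ q) (hi : p i < q i) :
    p + Pi.single i 1 ≤ q := by
  intro k
  by_cases hk : k = i
  · subst hk
    simp only [Pi.add_apply, Pi.single_eq_same]
    omega
  · simp only [Pi.add_apply, Pi.single_eq_of_ne hk, add_zero]
    exact h k

theorem mx_anti {e : ℕ} {P : Finset (Fin e → ℕ)} (hP : IsLowerSet (P : Set (Fin e → ℕ)))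
    {p q : Fin e → ℕ} (hp : p ∈ Mx P) (hq : q ∈ Mx P) (h : p ≤ q) : p = q := by
  classical
  by_contra hne
  have : ∃ i, p i < q i := by
    by_contra hcon
    push Not at hcon
    exact hne (le_antisymm h hcon)
  obtain ⟨i, hi⟩ := this
  have h1 := (Finset.mem_filter.1 hp).2 i
  have h2 := (Finset.mem_filter.1 hq).1
  exact h1 (hP (add_single_le h hi) h2)

theorem bl_mono {e : ℕ} {P : Finset (Fin e → ℕ)} (hP : IsLowerSet (P : Set (Fin e → ℕ)))
    {i j : Fin e} {p q : Fin e → ℕ} (hp : p ∈ Mx P) (hq : q ∈ Mx P) (hb : Bl P i j p)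
    (h : ∀ k, k ≠ i → k ≠ j → p k ≤ q k) : q i ≤ p i := by
  classical
  obtain ⟨hij, g, hg, hgle, hgj⟩ := hb
  by_contra hcon
  refine hg (hP (?_ : g ≤ q) (Finset.mem_filter.1 hq).1)
  intro k
  change g k ≤ q k
  have h1 := hgle k
  by_cases hk : k = i
  · subst hk
    simp only [Pi.add_apply, Pi.single_eq_same] at h1
    omega
  · simp only [Pi.add_apply, Pi.single_eq_of_ne hk, add_zero] at h1
    by_cases hkj : k = j
    · subst hkj
      omega
    · exact h1.trans (h k hk hkj)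

theorem bl_eq {e : ℕ} {P : Finset (Fin e → ℕ)} (hP : IsLowerSet (P : Set (Fin e → ℕ)))
    {i j : Fin e} {p q : Fin e → ℕ} (hp : p ∈ Mx P) (hq : q ∈ Mx P) (hb : Bl P i j p)
    (hb' : Bl P i j q) (h : ∀ k, k ≠ i → k ≠ j → p k = q k) : p = q := by
  have h1 := bl_mono hP hp hq hb fun k h1 h2 => (h k h1 h2).le
  have h2 := bl_mono hP hq hp hb' fun k h1 h2 => (h k h1 h2).ge
  have h3 : ∀ k, k ≠ j → p k = q k := fun k hk => by
    by_cases hki : k = i
    · subst hki
      exact le_antisymm h2 h1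
    · exact h k hki hk
  rcases le_total (p j) (q j) with h4 | h4
  · refine mx_anti hP hp hq fun k => ?_
    by_cases hk : k = j
    · subst hk
      exact h4
    · exact (h3 k hk).le
  · refine (mx_anti hP hq hp fun k => ?_).symm
    by_cases hk : k = j
    · subst hk
      exact h4
    · exact (h3 k hk).ge

theorem bl_or {e : ℕ} {P : Finset (Fin e → ℕ)} (hP : IsLowerSet (P : Set (Fin e → ℕ)))
    {p : Fin e → ℕ} (hp : p ∈ Mx P) (i : Fin e) :
    (∃ j, Bl P i j p) ∨ ∃ F : Fin e → ℕ, (∀ k, 1 ≤ F k) ∧ F ∉ P ∧ (∀ k, F - Pi.single k 1 ∈ P) ∧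
      F ≤ p + Pi.single i 1 ∧ F i = p i + 1 := by
  classical
  have hp1 := (Finset.mem_filter.1 hp).1
  have hp2 := (Finset.mem_filter.1 hp).2 i
  obtain ⟨g, ⟨hg, hgle⟩, hmin⟩ := WellFounded.has_min
    (measure (fun g : Fin e → ℕ => ∑ k, g k)).wf
    {g : Fin e → ℕ | g ∉ P ∧ g ≤ p + Pi.single i 1} ⟨_, hp2, le_rfl⟩
  have hgi : g i = p i + 1 := by
    have h1 := hgle i
    simp only [Pi.add_apply, Pi.single_eq_same] at h1
    by_contra h2
    refine hg (hP (?_ : g ≤ p) hp1)
    intro k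
    change g k ≤ p k
    by_cases hk : k = i
    · subst hk
      omega
    · have h3 := hgle k
      simpa only [Pi.add_apply, Pi.single_eq_of_ne hk, add_zero] using h3
  by_cases hj : ∃ j, g j = 0
  · obtain ⟨j, hj⟩ := hj
    refine Or.inl ⟨j, ?_, g, hg, hgle, hj⟩
    rintro rfl
    omega
  · push Not at hj
    refine Or.inr ⟨g, fun k => Nat.one_le_iff_ne_zero.2 (hj k), hg, fun k => ?_, hgle, hgi⟩
    by_contra hk
    have h1 : g - Pi.single k 1 ≤ g := fun l => Nat.sub_le _ _
    refine hmin (g - Pi.single k 1) ⟨hk, h1.trans hgle⟩ ?_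
    refine Finset.sum_lt_sum (fun l _ => h1 l) ⟨k, Finset.mem_univ _, ?_⟩
    have := hj k
    simp only [Pi.sub_apply, Pi.single_eq_same]
    omega

theorem bl_one {e : ℕ} {P : Finset (Fin e → ℕ)} (hP : IsLowerSet (P : Set (Fin e → ℕ)))
    (hF : OneFull P) {p : Fin e → ℕ} (hp : p ∈ Mx P) {i i' : Fin e} (hii : i ≠ i') :
    (∃ j, Bl P i j p) ∨ ∃ j, Bl P i' j p := by
  rcases bl_or hP hp i with h | ⟨F, h1, h2, h3, h4, h5⟩
  · exact Or.inl h
  · rcases bl_or hP hp i' with h | ⟨F', h1', h2', h3', h4', h5'⟩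
    · exact Or.inr h
    · exfalso
      have e := hF F F' h1 h1' h2 h2' h3 h3'
      subst e
      have h6 := h4 i'
      simp only [Pi.add_apply, Pi.single_eq_of_ne hii.symm, add_zero] at h6
      omega

end Pool.Agent.TH
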