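import Mathlib

/-!
# The constant

`cc e = e * ((e-1)! / e)^((e-2)/(e-1)) / (e-2)!`.

`cc_lt`: with `n = e - 1 ≥ 2`: `cc e ^ n = (n+1) n^n / n!` and `(n+1) n^n < 3^n n!` (induction).
-/

namespace Pool.Agent.TH

noncomputable def cc (e : ℕ) : ℝ :=
  (e : ℝ) * (((e - 1).factorial : ℝ) / (e : ℝ)) ^ (((e : ℝ) - 2) / ((e : ℝ) - 1)) / ((e - 2).factorial : ℝ)

theorem one_add_pow_le (n : ℕ) (hn : 1 ≤ n) : ((n : ℝ) + 1) ^ n ≤ Real.exp 1 * (n : ℝ) ^ n := by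
  have hn0 : (0 : ℝ) < n := by exact_mod_cast hn
  have h1 : (1 : ℝ) + 1 / n ≤ Real.exp (1 / n) := by
    have := Real.add_one_le_exp (1 / (n : ℝ)); linarith
  have h2 : ((1 : ℝ) + 1 / n) ^ n ≤ Real.exp 1 := by
    calc ((1 : ℝ) + 1 / n) ^ n ≤ (Real.exp (1 / n)) ^ n := by
          apply pow_le_pow_left₀ (by positivity) h1
      _ = Real.exp 1 := by
          rw [← Real.exp_nat_mul]; congr 1; field_simp
  have h3 : ((n : ℝ) + 1) ^ n = (1 + 1 / (n : ℝ)) ^ n * (n : ℝ) ^ n := by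
    rw [← mul_pow]; congr 1; field_simp
  rw [h3]
  exact mul_le_mul_of_nonneg_right h2 (by positivity)

theorem key (n : ℕ) (hn : 2 ≤ n) : ((n : ℝ) + 1) * (n : ℝ) ^ n < 3 ^ n * (n.factorial : ℝ) := by
  induction n, hn using Nat.le_induction with
  | base => norm_num [Nat.factorial]
  | succ n hn ih =>
    have hn0 : (0 : ℝ) < n := by exact_mod_cast (by omega : 0 < n)
    -- (n+2) (n+1)^(n+1) < 3^(n+1) (n+1)!
    -- suffices (n+2) (n+1)^n ≤ 3 (n+1) n^n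
    have step : ((n : ℝ) + 2) * ((n : ℝ) + 1) ^ n ≤ 3 * (((n : ℝ) + 1) * (n : ℝ) ^ n) := by
      by_cases h9 : 9 ≤ n
      · have h1 := one_add_pow_le n (by omega)
        have he := Real.exp_one_lt_d9
        have h9' : (9 : ℝ) ≤ n := by exact_mod_cast h9
        have hp : (0 : ℝ) < (n : ℝ) ^ n := by positivity
        calc ((n : ℝ) + 2) * ((n : ℝ) + 1) ^ n ≤ ((n : ℝ) + 2) * (Real.exp 1 * (n : ℝ) ^ n) :=
              mul_le_mul_of_nonneg_left h1 (by positivity)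
          _ = (((n : ℝ) + 2) * Real.exp 1) * (n : ℝ) ^ n := by ring
          _ ≤ (3 * ((n : ℝ) + 1)) * (n : ℝ) ^ n := by
              apply mul_le_mul_of_nonneg_right _ hp.le
              nlinarith
          _ = _ := by ring
      · interval_cases n <;> norm_num
    have hf : ((n + 1).factorial : ℝ) = ((n : ℝ) + 1) * (n.factorial : ℝ) := by
      rw [Nat.factorial_succ]; push_cast; ring
    rw [hf]
    push_cast
    have e1 : ((n : ℝ) + 1 + 1) * ((n : ℝ) + 1) ^ (n + 1) = (((n : ℝ) + 2) * ((n : ℝ) + 1) ^ n) * ((n : ℝ) + 1) := by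
      rw [pow_succ]; ring
    rw [e1]
    calc (((n : ℝ) + 2) * ((n : ℝ) + 1) ^ n) * ((n : ℝ) + 1)
        ≤ (3 * (((n : ℝ) + 1) * (n : ℝ) ^ n)) * ((n : ℝ) + 1) :=
          mul_le_mul_of_nonneg_right step (by positivity)
      _ < (3 * (3 ^ n * (n.factorial : ℝ))) * ((n : ℝ) + 1) := by
          apply mul_lt_mul_of_pos_right _ (by positivity)
          linarith
      _ = 3 ^ (n + 1) * (((n : ℝ) + 1) * (n.factorial : ℝ)) := by rw [pow_succ]; ring

theorem cc_nonneg (e : ℕ) : 0 ≤ cc e := by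
  unfold cc; positivity

theorem cc_pow (n : ℕ) (hn : 2 ≤ n) : cc (n + 1) ^ n = ((n : ℝ) + 1) * (n : ℝ) ^ n / (n.factorial : ℝ) := by
  have hn0 : (0 : ℝ) < n := by exact_mod_cast (by omega : 0 < n)
  unfold cc
  have e1 : n + 1 - 1 = n := by omega
  have e2 : n + 1 - 2 = n - 1 := by omega
  rw [e1, e2]
  push_cast
  have e3 : ((n : ℝ) + 1 - 2) / ((n : ℝ) + 1 - 1) = ((n - 1 : ℕ) : ℝ) / (n : ℝ) := by
    rw [Nat.cast_sub (by omega)]; push_cast; congr 1 <;> ring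
  rw [e3]
  have hb : (0 : ℝ) ≤ (n.factorial : ℝ) / ((n : ℝ) + 1) := by positivity
  have e4 : (((n.factorial : ℝ) / ((n : ℝ) + 1)) ^ (((n - 1 : ℕ) : ℝ) / (n : ℝ))) ^ n
      = ((n.factorial : ℝ) / ((n : ℝ) + 1)) ^ (n - 1) := by
    rw [← Real.rpow_natCast, ← Real.rpow_mul hb, div_mul_cancel₀ _ hn0.ne', Real.rpow_natCast]
  rw [div_pow, mul_pow, e4, div_pow]
  obtain ⟨k, rfl⟩ : ∃ k, n = k + 1 := ⟨n - 1, by omega⟩
  simp only [Nat.add_sub_cancel]
  have hf : ((k + 1).factorial : ℝ) = ((k : ℝ) + 1) * (k.factorial : ℝ) := by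
    rw [Nat.factorial_succ]; push_cast; ring
  rw [hf]
  push_cast
  have hk : (k.factorial : ℝ) ≠ 0 := by positivity
  have hk1 : (k : ℝ) + 1 ≠ 0 := by positivity
  have hk2 : (k : ℝ) + 1 + 1 ≠ 0 := by positivity
  rw [mul_pow]
  field_simp
  ring

theorem cc_lt {e : ℕ} (he : 3 ≤ e) : cc e < 3 := by
  obtain ⟨n, rfl⟩ : ∃ n, e = n + 1 := ⟨e - 1, by omega⟩
  have hn : 2 ≤ n := by omega
  have h := key n hn
  have h2 := cc_pow n hn
  have h3 : cc (n + 1) ^ n < 3 ^ n := by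
    rw [h2, div_lt_iff₀ (by positivity)]
    exact h
  exact lt_of_pow_lt_pow_left₀ n (by norm_num) h3

theorem cc_ge : 2 ≤ cc 3 := by
  have h2 := cc_pow 2 le_rfl
  have h0 := cc_nonneg 3
  norm_num [Nat.factorial] at h2
  nlinarith

end Pool.Agent.TH
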