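import Pool.Agent.TH.Basic

/-!
# The discarded elements

* `cnt1`: `L * #{p ∈ Mx P | L ≤ p i + 1} ≤ #P` for each `i` (columns `{p - t e_i}` are disjoint, `mx_anti`).
* `cnt2`: `L * #{p ∈ Mx P | Bl P i j p, L ≤ (p i + 1) (p j + 1)} ≤ #P` (rectangles `{x ≤ p | x k = p k for k ≠ i, j}` are disjoint by
  `bl_eq`, each has `(p i + 1)(p j + 1)` elements, all in `P`).
* `cnt3`: for distinct `i, j, k`: `#{p ∈ Mx P | Bl P i j p, p l + 1 < L for all l, p k < ε} ≤ ε * L^(e-3)` (`p` is determined by its
  coordinates other than `i, j`, `bl_eq`; the coordinate `k` has `ε` values, the other `e - 3` coordinates have `< L` values).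
* `cnt4`: for distinct `i, j, k` and `v`: `#{p ∈ Mx P | Bl P i j p, p l + 1 < L for all l, p k = v} ≤ L^(e-3)`, same proof.
-/

namespace Pool.Agent.TH

open Finset

open Classical in
theorem cnt1 {e : ℕ} {P : Finset (Fin e → ℕ)} (hP : IsLowerSet (P : Set (Fin e → ℕ))) (L : ℕ) (i : Fin e) :
    L * ((Mx P).filter (fun p => L ≤ p i + 1)).card ≤ P.card := by
  have hmx : ∀ p ∈ Mx P, p ∈ P := fun p hp => (Finset.mem_filter.1 hp).1
  set S := (Mx P).filter (fun p => L ≤ p i + 1) with hS
  have h1 : (Finset.range L ×ˢ S).card ≤ P.card := by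
    refine Finset.card_le_card_of_injOn (fun x => Function.update x.2 i (x.2 i - x.1)) ?_ ?_
    · rintro ⟨t, p⟩ hx
      obtain ⟨ht, hp⟩ := Finset.mem_product.1 hx
      have hp1 := (Finset.mem_filter.1 hp).1
      refine hP ?_ (hmx p hp1)
      intro k
      show Function.update p i (p i - t) k ≤ p k
      by_cases hk : k = i
      · subst hk
        rw [Function.update_self]
        omega
      · rw [Function.update_of_ne hk]
    · rintro ⟨t, p⟩ hx ⟨s, q⟩ hy hxy
      obtain ⟨ht, hp⟩ := Finset.mem_product.1 (Finset.mem_coe.1 hx)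
      obtain ⟨hs, hq⟩ := Finset.mem_product.1 (Finset.mem_coe.1 hy)
      obtain ⟨hp1, hp2⟩ := Finset.mem_filter.1 hp
      obtain ⟨hq1, hq2⟩ := Finset.mem_filter.1 hq
      have ht' : t < L := Finset.mem_range.1 ht
      have hs' : s < L := Finset.mem_range.1 hs
      have hp2' : L ≤ p i + 1 := hp2
      have hq2' : L ≤ q i + 1 := hq2
      have hxy' : Function.update p i (p i - t) = Function.update q i (q i - s) := hxy
      have hoff : ∀ k, k ≠ i → p k = q k := by
        intro k hk
        have := congrFun hxy' k
        simpa [Function.update_of_ne hk] using this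
      have hi := congrFun hxy' i
      simp only [Function.update_self] at hi
      have hpq : p = q := by
        rcases le_total (p i) (q i) with h | h
        · refine mx_anti hP hp1 hq1 (fun k => ?_)
          by_cases hk : k = i
          · rw [hk]; exact h
          · exact (hoff k hk).le
        · refine (mx_anti hP hq1 hp1 (fun k => ?_)).symm
          by_cases hk : k = i
          · rw [hk]; exact h
          · exact (hoff k hk).ge
      subst hpq
      have : t = s := by omega
      rw [this]
  rwa [Finset.card_product, Finset.card_range] at h1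

open Classical in
theorem cnt2 {e : ℕ} {P : Finset (Fin e → ℕ)} (hP : IsLowerSet (P : Set (Fin e → ℕ))) (L : ℕ) (i j : Fin e) :
    L * ((Mx P).filter (fun p => Bl P i j p ∧ L ≤ (p i + 1) * (p j + 1))).card ≤ P.card := by
  have hmx : ∀ p ∈ Mx P, p ∈ P := fun p hp => (Finset.mem_filter.1 hp).1
  set S := (Mx P).filter (fun p => Bl P i j p ∧ L ≤ (p i + 1) * (p j + 1)) with hS
  have h1 : (S.sigma (fun p => Finset.range (p i + 1) ×ˢ Finset.range (p j + 1))).card ≤ P.card := by
    refine Finset.card_le_card_of_injOn
      (fun x => Function.update (Function.update x.1 i x.2.1) j x.2.2) ?_ ?_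
    · rintro ⟨p, a, b⟩ hx
      obtain ⟨hp, hab⟩ := Finset.mem_sigma.1 hx
      obtain ⟨ha, hb⟩ := Finset.mem_product.1 hab
      have ha' : a < p i + 1 := Finset.mem_range.1 ha
      have hb' : b < p j + 1 := Finset.mem_range.1 hb
      have hp1 := (Finset.mem_filter.1 hp).1
      refine hP ?_ (hmx p hp1)
      intro k
      show Function.update (Function.update p i a) j b k ≤ p k
      by_cases hkj : k = j
      · subst hkj
        rw [Function.update_self]
        omega
      · rw [Function.update_of_ne hkj]
        by_cases hki : k = i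
        · subst hki
          rw [Function.update_self]
          omega
        · rw [Function.update_of_ne hki]
    · rintro ⟨p, a, b⟩ hx ⟨q, c, d⟩ hy hxy
      obtain ⟨hp, -⟩ := Finset.mem_sigma.1 (Finset.mem_coe.1 hx)
      obtain ⟨hq, -⟩ := Finset.mem_sigma.1 (Finset.mem_coe.1 hy)
      obtain ⟨hp1, hp2, -⟩ := Finset.mem_filter.1 hp
      obtain ⟨hq1, hq2, -⟩ := Finset.mem_filter.1 hq
      have hxy' : Function.update (Function.update p i a) j b =
          Function.update (Function.update q i c) j d := hxy
      have hoff : ∀ k, k ≠ i → k ≠ j → p k = q k := by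
        intro k hki hkj
        have := congrFun hxy' k
        simpa [Function.update_of_ne hkj, Function.update_of_ne hki] using this
      have hpq : p = q := bl_eq hP hp1 hq1 hp2 hq2 hoff
      subst hpq
      have hij : i ≠ j := hp2.1
      have hi := congrFun hxy' i
      have hj := congrFun hxy' j
      simp only [Function.update_self] at hj
      rw [Function.update_of_ne hij, Function.update_of_ne hij, Function.update_self,
        Function.update_self] at hi
      rw [hi, hj]
  rw [Finset.card_sigma] at h1
  refine le_trans ?_ h1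
  rw [mul_comm, ← smul_eq_mul]
  refine Finset.card_nsmul_le_sum _ _ _ (fun p hp => ?_)
  rw [Finset.card_product, Finset.card_range, Finset.card_range]
  exact (Finset.mem_filter.1 hp).2.2

open Classical in
private theorem cnt34 {e : ℕ} {P : Finset (Fin e → ℕ)} (hP : IsLowerSet (P : Set (Fin e → ℕ)))
    (L : ℕ) (T : Finset ℕ) {i j k : Fin e} (hij : i ≠ j) (hik : i ≠ k) (hjk : j ≠ k) :
    ((Mx P).filter (fun p => Bl P i j p ∧ (∀ l, p l + 1 < L) ∧ p k ∈ T)).card ≤
      T.card * L ^ (e - 3) := by
  set c : Fin e → Finset ℕ := fun l =>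
    if l = i then {0} else if l = j then {0} else if l = k then T else Finset.range L with hc
  have hcard : (Fintype.piFinset c).card = T.card * L ^ (e - 3) := by
    rw [Fintype.card_piFinset, ← Finset.prod_mul_prod_compl ({i, j, k} : Finset (Fin e))]
    congr 1
    · rw [Finset.prod_insert (by simp [hij, hik]), Finset.prod_insert (by simp [hjk]),
        Finset.prod_singleton]
      simp [hc, hij.symm, hik.symm, hjk.symm]
    · have h3 : ({i, j, k} : Finset (Fin e)).card = 3 :=
        Finset.card_eq_three.2 ⟨i, j, k, hij, hik, hjk, rfl⟩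
      have h4 : (({i, j, k} : Finset (Fin e))ᶜ).card = e - 3 := by
        rw [Finset.card_compl, Fintype.card_fin, h3]
      rw [← h4]
      refine Finset.prod_eq_pow_card (fun l hl => ?_)
      simp only [Finset.mem_compl, Finset.mem_insert, Finset.mem_singleton, not_or] at hl
      simp [hc, hl.1, hl.2.1, hl.2.2]
  rw [← hcard]
  refine Finset.card_le_card_of_injOn
    (fun p => Function.update (Function.update p i 0) j 0) ?_ ?_
  · intro p hp
    obtain ⟨hp1, hp2, hp3, hp4⟩ := Finset.mem_filter.1 hp
    show Function.update (Function.update p i 0) j 0 ∈ _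
    rw [Finset.mem_coe, Fintype.mem_piFinset]
    intro l
    by_cases hlj : l = j
    · subst hlj
      simp [hc, hij.symm]
    · by_cases hli : l = i
      · subst hli
        simp [hc, Function.update_of_ne hlj]
      · rw [Function.update_of_ne hlj, Function.update_of_ne hli]
        by_cases hlk : l = k
        · subst hlk
          simpa [hc, hli, hlj] using hp4
        · simp only [hc, hli, hlj, hlk, if_false, Finset.mem_range]
          have := hp3 l
          omega
  · intro p hp q hq hpq
    obtain ⟨hp1, hp2, -⟩ := Finset.mem_filter.1 (Finset.mem_coe.1 hp)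
    obtain ⟨hq1, hq2, -⟩ := Finset.mem_filter.1 (Finset.mem_coe.1 hq)
    refine bl_eq hP hp1 hq1 hp2 hq2 (fun l hli hlj => ?_)
    have := congrFun hpq l
    simpa [Function.update_of_ne hlj, Function.update_of_ne hli] using this

open Classical in
theorem cnt3 {e : ℕ} {P : Finset (Fin e → ℕ)} (hP : IsLowerSet (P : Set (Fin e → ℕ))) (L ε : ℕ)
    {i j k : Fin e} (hij : i ≠ j) (hik : i ≠ k) (hjk : j ≠ k) :
    ((Mx P).filter (fun p => Bl P i j p ∧ (∀ l, p l + 1 < L) ∧ p k < ε)).card ≤ ε * L ^ (e - 3) := by
  have h := cnt34 hP L (Finset.range ε) hij hik hjk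
  simpa only [Finset.mem_range, Finset.card_range] using h

open Classical in
theorem cnt4 {e : ℕ} {P : Finset (Fin e → ℕ)} (hP : IsLowerSet (P : Set (Fin e → ℕ))) (L v : ℕ)
    {i j k : Fin e} (hij : i ≠ j) (hik : i ≠ k) (hjk : j ≠ k) :
    ((Mx P).filter (fun p => Bl P i j p ∧ (∀ l, p l + 1 < L) ∧ p k = v)).card ≤ L ^ (e - 3) := by
  have h := cnt34 hP L {v} hij hik hjk
  simpa only [Finset.mem_singleton, Finset.card_singleton, one_mul] using h

end Pool.Agent.TH
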