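import Pool.Agent.TH.Lym

/-!
# The height argument

`P` a finite lower set of `Fin e → ℕ`, `i ≠ j` two coordinates, `s : ℕ`.  `M` is a finite set of elements of `P` such that
* (`h1`) for `p, q ∈ M` with `p k ≤ q k` for all `k ≠ i, j`: `q i ≤ p i`;
* (`h2`) for `p, q ∈ M`: `p ≤ q → p = q`;
* (`h3`) `p j < s` and `s ≤ p k` for all `k ≠ j` (`p ∈ M`).
`V = {x ∈ P | x j < s, s ≤ x k for all k ≠ j}`.

Claim (`height`): there is a finite lower set `Q` of `ι → ℕ`, `ι = Option {k // k ≠ i ∧ k ≠ j}` (`e - 1` coordinates), with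
`#M ≤ #max Q` and `#Q ≤ #V`.

Proof.  `T = {k // k ≠ i ∧ k ≠ j}`, `π p : T → ℕ` the restriction.  `π` is injective on `M` (if `π p = π q`, then `p i = q i` by `h1`
twice, so `p`, `q` are comparable (coordinate `j`), so equal by `h2`).  `A = π M`, all elements `≥ s`.  For `u : T → ℕ` let `h u` be the
largest size of a chain `c ⊆ A` (`IsChain (· ≤ ·)`) all of whose elements are `≥ u + s` (a maximum over `A.powerset`; `0` if none).
* `h` is antitone and `h u = 0` for all but finitely many `u`.
* For `a ∈ A` and `u = a - s`: `h u ≥ 1 + h (u + e_k)` (insert `a` into a chain of elements `≥ a + e_k`) and `h u ≥ 1`.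
* `Q = {(t, u) | t < h u}` (a function on `Option T`: `none ↦ t`, `some k ↦ u k`) is a finite lower set, and for `a ∈ A`
  the element `(h u - 1, u)`, `u = a - s`, is maximal in `Q`; different `a` give different elements.  So `#M = #A ≤ #max Q`.
* `#Q = ∑_u h u = ∑_u #c_u`, `c_u` a chain of maximal size; map (`u`, `a ∈ c_u`) to `x` with `x k = u k + s` (`k ∈ T`), `x i = p i`,
  `x j = p j`, where `p ∈ M`, `π p = a`: `x ≤ p`, so `x ∈ P`, and `x ∈ V`.  Injective: `u` is determined by `x`; if `a < a'` are both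
  in `c_u`, then (`h1`) `p' i ≤ p i`, and if `p' i = p i` then `p' j < p j` by `h2` (otherwise `p ≤ p'`).  So `#Q ≤ #V`.

`height_max`: combine with `max_le` (`Fintype.card ι = e - 1 ≥ 2`).
-/

namespace Pool.Agent.TH

open Finset

section HeightAux

variable {T : Type} [Fintype T] [DecidableEq T]

open Classical in
/-- chains of `A` above `u + s` -/
private noncomputable def chs (A : Finset (T → ℕ)) (s : ℕ) (u : T → ℕ) : Finset (Finset (T → ℕ)) :=
  A.powerset.filter (fun c => IsChain (· ≤ ·) (c : Set (T → ℕ)) ∧ ∀ a ∈ c, u + (fun _ => s) ≤ a)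

/-- the height -/
private noncomputable def hh (A : Finset (T → ℕ)) (s : ℕ) (u : T → ℕ) : ℕ :=
  (chs A s u).sup Finset.card

private theorem mem_chs (A : Finset (T → ℕ)) (s : ℕ) (u : T → ℕ) (c : Finset (T → ℕ)) :
    c ∈ chs A s u ↔ c ⊆ A ∧ IsChain (· ≤ ·) (c : Set (T → ℕ)) ∧ ∀ a ∈ c, u + (fun _ => s) ≤ a := by
  classical
  unfold chs
  rw [mem_filter, mem_powerset]

private theorem empty_mem_chs (A : Finset (T → ℕ)) (s : ℕ) (u : T → ℕ) : ∅ ∈ chs A s u := by
  rw [mem_chs]
  refine ⟨empty_subset _, ?_, ?_⟩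
  · simp [IsChain]
  · intro a ha
    exact absurd ha (notMem_empty a)

private theorem card_le_hh {A : Finset (T → ℕ)} {s : ℕ} {u : T → ℕ} {c : Finset (T → ℕ)}
    (h : c ∈ chs A s u) : c.card ≤ hh A s u := Finset.le_sup (f := Finset.card) h

private theorem exists_chain (A : Finset (T → ℕ)) (s : ℕ) (u : T → ℕ) :
    ∃ c ∈ chs A s u, c.card = hh A s u := by
  obtain ⟨c, hc, h⟩ := Finset.exists_mem_eq_sup (chs A s u) ⟨∅, empty_mem_chs A s u⟩ Finset.card
  exact ⟨c, hc, h.symm⟩

private theorem hh_anti (A : Finset (T → ℕ)) (s : ℕ) {u v : T → ℕ} (h : u ≤ v) :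
    hh A s v ≤ hh A s u := by
  obtain ⟨c, hc, hcard⟩ := exists_chain A s v
  rw [← hcard]
  rw [mem_chs] at hc
  refine card_le_hh ?_
  rw [mem_chs]
  exact ⟨hc.1, hc.2.1, fun a ha => (add_le_add_left h _).trans (hc.2.2 a ha)⟩

private theorem hh_pos_exists {A : Finset (T → ℕ)} {s : ℕ} {u : T → ℕ} (h : 0 < hh A s u) :
    ∃ a ∈ A, u ≤ a := by
  obtain ⟨c, hc, hcard⟩ := exists_chain A s u
  rw [mem_chs] at hc
  have hne : c.Nonempty := by
    rw [← Finset.card_pos, hcard]
    exact h
  obtain ⟨a, ha⟩ := hne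
  refine ⟨a, hc.1 ha, fun k => ?_⟩
  have h1 : u k + s ≤ a k := hc.2.2 a ha k
  show u k ≤ a k
  omega

private theorem hh_insert {A : Finset (T → ℕ)} {s : ℕ} {u : T → ℕ} (ha : u + (fun _ => s) ∈ A)
    {v : T → ℕ} (huv : u < v) : 1 + hh A s v ≤ hh A s u := by
  obtain ⟨c, hc, hcard⟩ := exists_chain A s v
  rw [mem_chs] at hc
  have hlt : ∀ b ∈ c, u + (fun _ => s) < b := fun b hb =>
    lt_of_lt_of_le (by
      rw [Pi.lt_def] at huv ⊢
      obtain ⟨h1, k, hk⟩ := huv
      refine ⟨fun l => ?_, k, ?_⟩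
      · have h2 : u l ≤ v l := h1 l
        show u l + s ≤ v l + s
        omega
      · show u k + s < v k + s
        omega) (hc.2.2 b hb)
  have hni : u + (fun _ => s) ∉ c := fun h => lt_irrefl _ (hlt _ h)
  have h2 : insert (u + (fun _ => s)) c ∈ chs A s u := by
    rw [mem_chs]
    refine ⟨?_, ?_, ?_⟩
    · intro b hb
      rcases mem_insert.1 hb with h | h
      · rw [h]; exact ha
      · exact hc.1 h
    · rw [coe_insert]
      exact hc.2.1.insert fun b hb _ => Or.inl (hlt b hb).le
    · intro b hb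
      rcases mem_insert.1 hb with h | h
      · rw [h]
      · exact (hlt b h).le
  have h3 := card_le_hh h2
  rw [card_insert_of_notMem hni, hcard] at h3
  omega

private theorem hh_pos {A : Finset (T → ℕ)} {s : ℕ} {u : T → ℕ} (ha : u + (fun _ => s) ∈ A) :
    1 ≤ hh A s u := by
  have h2 : {u + (fun _ => s)} ∈ chs A s u := by
    rw [mem_chs]
    refine ⟨singleton_subset_iff.2 ha, ?_, ?_⟩
    · rw [coe_singleton]
      exact IsChain.singleton
    · intro b hb
      rw [mem_singleton.1 hb]
  have h3 := card_le_hh h2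
  rwa [card_singleton] at h3

private def mk (t : ℕ) (u : T → ℕ) : Option T → ℕ := fun o => o.elim t u

/-- the ideal -/
private noncomputable def QQ (A : Finset (T → ℕ)) (s : ℕ) : Finset (Option T → ℕ) :=
  ((A.biUnion fun a => Finset.Iic a).sigma fun u => range (hh A s u)).image fun x => mk x.2 x.1

private theorem mem_QQ (A : Finset (T → ℕ)) (s : ℕ) (q : Option T → ℕ) :
    q ∈ QQ A s ↔ q none < hh A s (fun k => q (some k)) := by
  unfold QQ
  rw [mem_image]
  constructor
  · rintro ⟨⟨u, t⟩, hx, rfl⟩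
    rw [mem_sigma] at hx
    exact mem_range.1 hx.2
  · intro h
    refine ⟨⟨fun k => q (some k), q none⟩, ?_, ?_⟩
    · rw [mem_sigma]
      refine ⟨?_, mem_range.2 h⟩
      obtain ⟨a, ha, hle⟩ := hh_pos_exists (lt_of_le_of_lt (Nat.zero_le _) h)
      exact mem_biUnion.2 ⟨a, ha, mem_Iic.2 hle⟩
    · funext o
      cases o <;> rfl

private theorem card_QQ (A : Finset (T → ℕ)) (s : ℕ) :
    (QQ A s).card = ∑ u ∈ A.biUnion fun a => Finset.Iic a, hh A s u := by
  unfold QQ
  rw [card_image_of_injective, card_sigma]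
  · simp
  · rintro ⟨u, t⟩ ⟨u', t'⟩ h
    have h1 : t = t' := congrFun h none
    have h2 : u = u' := by
      funext k
      exact congrFun h (some k)
    rw [h1, h2]

end HeightAux

theorem height {e : ℕ} {P M : Finset (Fin e → ℕ)} (hP : IsLowerSet (P : Set (Fin e → ℕ))) (hM : M ⊆ P)
    {i j : Fin e} (hij : i ≠ j) {s : ℕ}
    (h1 : ∀ p ∈ M, ∀ q ∈ M, (∀ k, k ≠ i → k ≠ j → p k ≤ q k) → q i ≤ p i)
    (h2 : ∀ p ∈ M, ∀ q ∈ M, p ≤ q → p = q)
    (h3 : ∀ p ∈ M, p j < s ∧ ∀ k, k ≠ j → s ≤ p k) :
    ∃ Q : Finset (Option {k : Fin e // k ≠ i ∧ k ≠ j} → ℕ),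
      IsLowerSet (Q : Set (Option {k : Fin e // k ≠ i ∧ k ≠ j} → ℕ)) ∧
      M.card ≤ (Q.filter (fun p => ∀ l, p + Pi.single l 1 ∉ Q)).card ∧
      Q.card ≤ (P.filter (fun x => x j < s ∧ ∀ k, k ≠ j → s ≤ x k)).card := by
  classical
  obtain ⟨π, hπ⟩ : ∃ π : (Fin e → ℕ) → ({k : Fin e // k ≠ i ∧ k ≠ j} → ℕ),
      ∀ p k, π p k = p k.1 := ⟨fun p k => p k.1, fun _ _ => rfl⟩
  obtain ⟨A, hA⟩ : ∃ A, A = M.image π := ⟨_, rfl⟩
  have hπinj : Set.InjOn π (M : Set (Fin e → ℕ)) := by
    intro p hp q hq hpq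
    have hk : ∀ k, k ≠ i → k ≠ j → p k = q k := fun k ki kj => by
      have := congrFun hpq ⟨k, ki, kj⟩
      rwa [hπ, hπ] at this
    have e1 := h1 p hp q hq fun k ki kj => (hk k ki kj).le
    have e2 := h1 q hq p hp fun k ki kj => (hk k ki kj).ge
    have ei : p i = q i := le_antisymm e2 e1
    rcases le_total (p j) (q j) with hj | hj
    · refine h2 p hp q hq fun k => ?_
      by_cases ki : k = i
      · rw [ki]; exact ei.le
      · by_cases kj : k = j
        · rw [kj]; exact hj
        · exact (hk k ki kj).le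
    · refine (h2 q hq p hp fun k => ?_).symm
      by_cases ki : k = i
      · rw [ki]; exact ei.ge
      · by_cases kj : k = j
        · rw [kj]; exact hj
        · exact (hk k ki kj).ge
  have hAcard : A.card = M.card := by
    rw [hA]
    exact card_image_of_injOn hπinj
  have hAs : ∀ a ∈ A, ∀ k, s ≤ a k := by
    intro a ha k
    rw [hA, mem_image] at ha
    obtain ⟨p, hp, rfl⟩ := ha
    rw [hπ]
    exact (h3 p hp).2 k.1 k.2.2
  have hsub : ∀ a ∈ A, (fun k => a k - s) + (fun _ => s) = a := by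
    intro a ha
    funext k
    have := hAs a ha k
    simp only [Pi.add_apply]
    omega
  refine ⟨QQ A s, ?_, ?_, ?_⟩
  · intro q q' hle hq
    rw [mem_coe, mem_QQ] at hq ⊢
    calc q' none ≤ q none := hle none
      _ < hh A s (fun k => q (some k)) := hq
      _ ≤ hh A s (fun k => q' (some k)) := hh_anti A s fun k => hle (some k)
  · rw [← hAcard]
    refine card_le_card_of_injOn (fun a => mk (hh A s (fun k => a k - s) - 1) (fun k => a k - s))
      ?_ ?_
    · intro a ha
      have ha' : a ∈ A := ha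
      have hmem : (fun k => a k - s) + (fun _ => s) ∈ A := by
        rw [hsub a ha']
        exact ha'
      have hpos := hh_pos hmem
      rw [mem_coe, mem_filter]
      refine ⟨?_, ?_⟩
      · rw [mem_QQ]
        change hh A s (fun k => a k - s) - 1 < hh A s (fun k => a k - s)
        omega
      · intro l hl
        rw [mem_QQ] at hl
        beta_reduce at hl
        cases l with
        | none =>
          have e1 : (mk (hh A s (fun k => a k - s) - 1) (fun k => a k - s) +
              Pi.single none 1 : Option {k : Fin e // k ≠ i ∧ k ≠ j} → ℕ) none =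
              hh A s (fun k => a k - s) - 1 + 1 := by
            simp [mk]
          have e2 : (fun k => (mk (hh A s (fun k => a k - s) - 1) (fun k => a k - s) +
              Pi.single none 1 : Option {k : Fin e // k ≠ i ∧ k ≠ j} → ℕ) (some k)) =
              fun k => a k - s := by
            funext k
            simp [mk]
          rw [e1, e2] at hl
          omega
        | some k₀ =>
          have e1 : (mk (hh A s (fun k => a k - s) - 1) (fun k => a k - s) +
              Pi.single (some k₀) 1 : Option {k : Fin e // k ≠ i ∧ k ≠ j} → ℕ) none =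
              hh A s (fun k => a k - s) - 1 := by
            simp [mk]
          have e2 : (fun k => a k - s) < (fun k => (mk (hh A s (fun k => a k - s) - 1)
              (fun k => a k - s) +
              Pi.single (some k₀) 1 : Option {k : Fin e // k ≠ i ∧ k ≠ j} → ℕ) (some k)) := by
            rw [Pi.lt_def]
            refine ⟨fun k => ?_, k₀, ?_⟩
            · simp [mk]
            · simp [mk]
          rw [e1] at hl
          have := hh_insert hmem e2
          omega
    · intro a ha b hb hab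
      have ha' : a ∈ A := ha
      have hb' : b ∈ A := hb
      funext k
      have := congrFun hab (some k)
      have e1 : a k - s = b k - s := this
      have := hAs a ha' k
      have := hAs b hb' k
      omega
  · rw [card_QQ]
    choose c hc hcard using exists_chain A s
    have hlift : ∀ a, ∃ p, a ∈ A → p ∈ M ∧ π p = a := by
      intro a
      by_cases ha : a ∈ A
      · have ha2 := ha
        rw [hA, mem_image] at ha2
        obtain ⟨p, hp, hpa⟩ := ha2
        exact ⟨p, fun _ => ⟨hp, hpa⟩⟩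
      · exact ⟨fun _ => 0, fun h => absurd h ha⟩
    choose L hL using hlift
    have hsum : ∑ u ∈ A.biUnion (fun a => Finset.Iic a), hh A s u =
        ((A.biUnion (fun a => Finset.Iic a)).sigma c).card := by
      rw [card_sigma]
      exact sum_congr rfl fun u _ => (hcard u).symm
    rw [hsum]
    refine card_le_card_of_injOn (fun x => fun k => if hk : k ≠ i ∧ k ≠ j then x.1 ⟨k, hk⟩ + s
      else L x.2 k) ?_ ?_
    · rintro ⟨u, a⟩ hx
      rw [mem_coe, mem_sigma] at hx
      have hcu := (mem_chs A s u (c u)).1 (hc u)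
      have ha : a ∈ A := hcu.1 hx.2
      have hua := hcu.2.2 a hx.2
      obtain ⟨hLM, hLa⟩ := hL a ha
      have hle : (fun k => if hk : k ≠ i ∧ k ≠ j then u ⟨k, hk⟩ + s else L a k) ≤ L a := by
        intro k
        by_cases hk : k ≠ i ∧ k ≠ j
        · simp only [dif_pos hk]
          have e1 := hua ⟨k, hk⟩
          have e2 : a ⟨k, hk⟩ = L a k := by
            rw [← hπ (L a) ⟨k, hk⟩, hLa]
          rw [← e2]
          exact e1
        · simp only [dif_neg hk]
          exact le_rfl
      rw [mem_coe, mem_filter]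
      refine ⟨hP hle (hM hLM), ?_, ?_⟩
      · have hj : ¬ (j ≠ i ∧ j ≠ j) := fun h => h.2 rfl
        simp only [dif_neg hj]
        exact (h3 _ hLM).1
      · intro k hkj
        by_cases hk : k ≠ i ∧ k ≠ j
        · simp only [dif_pos hk]
          omega
        · simp only [dif_neg hk]
          exact (h3 _ hLM).2 k hkj
    · rintro ⟨u, a⟩ hx ⟨u', a'⟩ hx' heq
      rw [mem_coe, mem_sigma] at hx hx'
      have heq' : (fun k => if hk : k ≠ i ∧ k ≠ j then u ⟨k, hk⟩ + s else L a k) =
          (fun k => if hk : k ≠ i ∧ k ≠ j then u' ⟨k, hk⟩ + s else L a' k) := heq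
      have huu : u = u' := by
        funext ⟨k, hk⟩
        have := congrFun heq' k
        simp only [dif_pos hk] at this
        omega
      subst huu
      have hcu := (mem_chs A s u (c u)).1 (hc u)
      have ha : a ∈ A := hcu.1 hx.2
      have ha' : a' ∈ A := hcu.1 hx'.2
      obtain ⟨hLM, hLa⟩ := hL a ha
      obtain ⟨hLM', hLa'⟩ := hL a' ha'
      have ei : L a i = L a' i := by
        have := congrFun heq' i
        have hi : ¬ (i ≠ i ∧ i ≠ j) := fun h => h.1 rfl
        simpa only [dif_neg hi] using this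
      have ej : L a j = L a' j := by
        have := congrFun heq' j
        have hj : ¬ (j ≠ i ∧ j ≠ j) := fun h => h.2 rfl
        simpa only [dif_neg hj] using this
      have key : ∀ b b' : {k : Fin e // k ≠ i ∧ k ≠ j} → ℕ, L b ∈ M → L b' ∈ M → π (L b) = b →
          π (L b') = b' → L b i = L b' i → L b j = L b' j → b ≤ b' → b = b' := by
        intro b b' hb hb' hbb hbb' e1 e2 hle
        have : L b = L b' := by
          refine h2 _ hb _ hb' fun k => ?_
          by_cases ki : k = i
          · rw [ki]; exact e1.le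
          · by_cases kj : k = j
            · rw [kj]; exact e2.le
            · have e3 := hle ⟨k, ki, kj⟩
              have e4 : b ⟨k, ki, kj⟩ = L b k := by
                rw [← hπ (L b) ⟨k, ki, kj⟩, hbb]
              have e5 : b' ⟨k, ki, kj⟩ = L b' k := by
                rw [← hπ (L b') ⟨k, ki, kj⟩, hbb']
              rw [e4, e5] at e3
              exact e3
        rw [← hbb, ← hbb', this]
      have haa : a = a' := by
        rcases eq_or_ne a a' with h | h
        · exact h
        · rcases hcu.2.1 hx.2 hx'.2 h with h' | h'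
          · exact key a a' hLM hLM' hLa hLa' ei ej h'
          · exact (key a' a hLM' hLM hLa' hLa ei.symm ej.symm h').symm
      rw [haa]

theorem height_max {e : ℕ} (he : 3 ≤ e) {P M : Finset (Fin e → ℕ)}
    (hP : IsLowerSet (P : Set (Fin e → ℕ))) (hM : M ⊆ P)
    {i j : Fin e} (hij : i ≠ j) {s : ℕ}
    (h1 : ∀ p ∈ M, ∀ q ∈ M, (∀ k, k ≠ i → k ≠ j → p k ≤ q k) → q i ≤ p i)
    (h2 : ∀ p ∈ M, ∀ q ∈ M, p ≤ q → p = q)
    (h3 : ∀ p ∈ M, p j < s ∧ ∀ k, k ≠ j → s ≤ p k) (R : ℕ) :
    (M.card : ℝ) ≤ ((e - 1 + R - 1).choose (e - 2) : ℝ) + ((e : ℝ) - 2) / ((R : ℝ) + (e : ℝ) - 1) *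
      (((P.filter (fun x => x j < s ∧ ∀ k, k ≠ j → s ≤ x k)).card : ℝ) -
        ((e - 1 + R).choose (e - 1) : ℝ)) := by
  obtain ⟨Q, hQ, hMQ, hQV⟩ := height hP hM hij h1 h2 h3
  have hT : Fintype.card {k : Fin e // k ≠ i ∧ k ≠ j} = e - 2 := by
    rw [Fintype.card_subtype]
    have : (univ.filter fun k : Fin e => k ≠ i ∧ k ≠ j) = (univ.erase i).erase j := by
      ext k
      simp [and_comm]
    rw [this, card_erase_of_mem (by simp [hij.symm]), card_erase_of_mem (mem_univ _), card_univ,
      Fintype.card_fin]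
    omega
  have hc : Fintype.card (Option {k : Fin e // k ≠ i ∧ k ≠ j}) = e - 1 := by
    rw [Fintype.card_option, hT]
    omega
  have hm := max_le (ι := Option {k : Fin e // k ≠ i ∧ k ≠ j}) (by rw [hc]; omega) Q hQ R
  rw [hc] at hm
  have e1 : ((e - 1 : ℕ) : ℝ) = (e : ℝ) - 1 := by
    rw [Nat.cast_sub (by omega)]
    norm_num
  have e2 : e - 1 - 1 = e - 2 := by omega
  rw [e1, e2] at hm
  have he3 : (3 : ℝ) ≤ e := by exact_mod_cast he
  have hR : (0 : ℝ) ≤ R := Nat.cast_nonneg R
  have hcoef : 0 ≤ ((e : ℝ) - 1 - 1) / ((R : ℝ) + ((e : ℝ) - 1)) := by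
    apply div_nonneg <;> linarith
  have hQV' : (Q.card : ℝ) ≤ ((P.filter (fun x => x j < s ∧ ∀ k, k ≠ j → s ≤ x k)).card : ℝ) := by
    exact_mod_cast hQV
  have hMQ' : (M.card : ℝ) ≤ ((Q.filter (fun p => ∀ l, p + Pi.single l 1 ∉ Q)).card : ℝ) := by
    exact_mod_cast hMQ
  have e3 : ((e : ℝ) - 2) / ((R : ℝ) + (e : ℝ) - 1) = ((e : ℝ) - 1 - 1) / ((R : ℝ) + ((e : ℝ) - 1)) := by
    congr 1 <;> ring
  rw [e3]
  refine hMQ'.trans (hm.trans ?_)
  have := mul_le_mul_of_nonneg_left
    (sub_le_sub_right hQV' ((e - 1 + R).choose (e - 1) : ℝ)) hcoef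
  linarith

end Pool.Agent.TH
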