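import Pool.Agent.TH.Rem
import Pool.Agent.TH.Count
import Pool.Agent.TH.Height

/-!
# The refined combinatorial bound

`comb2`: every `p ∈ Mx P` is in one of:
* `L ≤ p i + 1` for some `i` (`cnt1`, `e` sets, total `≤ e #P / L`);
* `Bl P i j p`, `L ≤ (p i + 1)(p j + 1)` for some `i, j` (`cnt2`, `≤ e²` pairs, total `≤ e² #P / L`);
* all `p l + 1 < L`, `Bl P i j p`, `p k < ε`, `i, j, k` distinct (`cnt3`, total `≤ e³ ε L^(e-3)`);
* all `p l + 1 < L`, `Bl P i j p`, `p k + 1 = F k`, `i, j, k` distinct, where `F` is the unique full-support minimal element outside `P`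
  (if there is one; `OneFull`) (`cnt4`, total `≤ e³ L^(e-3)`);
* (`rem`) for some `j` the set `M_j = {p ∈ Mx P | p j < s, s ≤ p k for k ≠ j, Bl P (i₀ j) j p}`; `height_max` applies to `M_j` with
  `i = i₀ j` (`h1` is `bl_mono`, `h2` is `mx_anti`).
The sets `V_j = {x ∈ P | x j < s, s ≤ x k for k ≠ j}` are disjoint (`e ≥ 2`), so `∑_j #V_j ≤ #P`; sum over `j`.
-/

namespace Pool.Agent.TH

open Finset

theorem comb2 {e : ℕ} (he : 4 ≤ e) {P : Finset (Fin e → ℕ)} (hP : IsLowerSet (P : Set (Fin e → ℕ)))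
    (hF : OneFull P) {L s ε : ℕ} (hL1 : 1 ≤ L) (hL : L ≤ s * s) (hs : s ≤ ε) (R : ℕ) :
    ((Mx P).card : ℝ) ≤ ((e : ℝ) + (e : ℝ) ^ 2) * (P.card : ℝ) / (L : ℝ) +
      (e : ℝ) ^ 3 * ((ε : ℝ) + 1) * (L : ℝ) ^ (e - 3) +
      ((e : ℝ) * ((e - 1 + R - 1).choose (e - 2) : ℝ) + ((e : ℝ) - 2) / ((R : ℝ) + (e : ℝ) - 1) *
        ((P.card : ℝ) - (e : ℝ) * ((e - 1 + R).choose (e - 1) : ℝ))) := by
  classical
  have hLpos : (0 : ℝ) < L := by exact_mod_cast hL1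
  have heR : (4 : ℝ) ≤ e := by exact_mod_cast he
  obtain ⟨i₀, hi₀⟩ : ∃ i₀ : Fin e → Fin e, ∀ j, i₀ j ≠ j := by
    refine ⟨fun j => if j = ⟨0, by omega⟩ then ⟨1, by omega⟩ else ⟨0, by omega⟩, fun j => ?_⟩
    by_cases hj : j = ⟨0, by omega⟩
    · simp [hj]
    · simp only [hj, if_false]
      exact fun h => hj h.symm
  obtain ⟨F, hFu⟩ : ∃ F : Fin e → ℕ, ∀ F' : Fin e → ℕ, (∀ k, 1 ≤ F' k) → F' ∉ P →
      (∀ k, F' - Pi.single k 1 ∈ P) → F' = F := by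
    by_cases hex : ∃ F : Fin e → ℕ, (∀ k, 1 ≤ F k) ∧ F ∉ P ∧ ∀ k, F - Pi.single k 1 ∈ P
    · obtain ⟨F, h1, h2, h3⟩ := hex
      exact ⟨F, fun F' h1' h2' h3' => hF F' F h1' h1 h2' h2 h3' h3⟩
    · exact ⟨0, fun F' h1' h2' h3' => absurd ⟨F', h1', h2', h3'⟩ hex⟩
  -- the discarded sets
  obtain ⟨T, hT⟩ : ∃ T : Finset (Fin e × Fin e × Fin e),
      T = univ.filter (fun t => t.1 ≠ t.2.1 ∧ t.1 ≠ t.2.2 ∧ t.2.1 ≠ t.2.2) := ⟨_, rfl⟩
  have hTc : (T.card : ℝ) ≤ (e : ℝ) ^ 3 := by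
    have h1 : T.card ≤ (univ : Finset (Fin e × Fin e × Fin e)).card := card_le_card (subset_univ _)
    have h2 : (univ : Finset (Fin e × Fin e × Fin e)).card = e ^ 3 := by
      simp [Finset.card_univ, Fintype.card_prod]; ring
    rw [h2] at h1
    exact_mod_cast h1
  obtain ⟨U1, hU1⟩ : ∃ U1 : Finset (Fin e → ℕ), U1 = (univ : Finset (Fin e)).biUnion
      (fun i => (Mx P).filter (fun p => L ≤ p i + 1)) := ⟨_, rfl⟩
  obtain ⟨U2, hU2⟩ : ∃ U2 : Finset (Fin e → ℕ), U2 = (univ : Finset (Fin e × Fin e)).biUnion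
      (fun t => (Mx P).filter (fun p => Bl P t.1 t.2 p ∧ L ≤ (p t.1 + 1) * (p t.2 + 1))) :=
    ⟨_, rfl⟩
  obtain ⟨U3, hU3⟩ : ∃ U3 : Finset (Fin e → ℕ), U3 = T.biUnion
      (fun t => (Mx P).filter (fun p => Bl P t.1 t.2.1 p ∧ (∀ l, p l + 1 < L) ∧ p t.2.2 < ε)) :=
    ⟨_, rfl⟩
  obtain ⟨U4, hU4⟩ : ∃ U4 : Finset (Fin e → ℕ), U4 = T.biUnion
      (fun t => (Mx P).filter (fun p => Bl P t.1 t.2.1 p ∧ (∀ l, p l + 1 < L) ∧
        p t.2.2 = F t.2.2 - 1)) := ⟨_, rfl⟩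
  obtain ⟨M, hM⟩ : ∃ M : Fin e → Finset (Fin e → ℕ), M = fun j => (Mx P).filter
      (fun p => p j < s ∧ (∀ k, k ≠ j → s ≤ p k) ∧ Bl P (i₀ j) j p) := ⟨_, rfl⟩
  have hcover : Mx P ⊆ U1 ∪ (U2 ∪ (U3 ∪ (U4 ∪ (univ : Finset (Fin e)).biUnion M))) := by
    intro p hp
    by_contra hn
    simp only [mem_union, not_or] at hn
    obtain ⟨n1, n2, n3, n4, n5⟩ := hn
    have h1 : ∀ l, p l + 1 < L := by
      intro l
      by_contra hl
      apply n1
      rw [hU1, mem_biUnion]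
      exact ⟨l, mem_univ _, mem_filter.2 ⟨hp, by omega⟩⟩
    have hb : ∀ i j, Bl P i j p → (p i + 1) * (p j + 1) < L := by
      intro i j hij
      by_contra hl
      apply n2
      rw [hU2, mem_biUnion]
      exact ⟨(i, j), mem_univ _, mem_filter.2 ⟨hp, hij, by simpa using hl⟩⟩
    have hc : ∀ i j, Bl P i j p → ∀ k, k ≠ i → k ≠ j → ε ≤ p k := by
      intro i j hij k hki hkj
      by_contra hl
      apply n3
      rw [hU3, mem_biUnion]
      refine ⟨(i, j, k), ?_, mem_filter.2 ⟨hp, hij, h1, by simpa using hl⟩⟩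
      rw [hT, mem_filter]
      exact ⟨mem_univ _, hij.1, hki.symm, hkj.symm⟩
    have hd : ∀ F : Fin e → ℕ, (∀ k, 1 ≤ F k) → F ∉ P → (∀ k, F - Pi.single k 1 ∈ P) →
        ∀ i j, Bl P i j p → ∀ k, k ≠ i → k ≠ j → p k + 1 ≠ F k := by
      intro F' f1 f2 f3 i j hij k hki hkj hk
      have hFF := hFu F' f1 f2 f3
      apply n4
      rw [hU4, mem_biUnion]
      refine ⟨(i, j, k), ?_, mem_filter.2 ⟨hp, hij, h1, ?_⟩⟩
      · rw [hT, mem_filter]
        exact ⟨mem_univ _, hij.1, hki.symm, hkj.symm⟩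
      · show p k = F k - 1
        rw [← hFF, ← hk]; omega
    obtain ⟨j, j1, j2, j3⟩ := rem he hP hF hL hs i₀ hi₀ hp hb hc hd
    apply n5
    rw [mem_biUnion]
    refine ⟨j, mem_univ _, ?_⟩
    rw [hM]
    exact mem_filter.2 ⟨hp, j1, j2, j3⟩
  have hcard : (Mx P).card ≤ U1.card + (U2.card + (U3.card + (U4.card + ∑ j, (M j).card))) := by
    refine (card_le_card hcover).trans ((card_union_le _ _).trans (Nat.add_le_add_left ?_ _))
    refine (card_union_le _ _).trans (Nat.add_le_add_left ?_ _)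
    refine (card_union_le _ _).trans (Nat.add_le_add_left ?_ _)
    refine (card_union_le _ _).trans (Nat.add_le_add_left ?_ _)
    exact card_biUnion_le
  -- the four bounds
  have b1 : (U1.card : ℝ) ≤ (e : ℝ) * ((P.card : ℝ) / L) := by
    have h1 : U1.card ≤ ∑ i : Fin e, ((Mx P).filter (fun p => L ≤ p i + 1)).card := by
      rw [hU1]; exact card_biUnion_le
    have h2 : ∀ i : Fin e, (((Mx P).filter (fun p => L ≤ p i + 1)).card : ℝ) ≤
        (P.card : ℝ) / L := by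
      intro i
      rw [le_div_iff₀ hLpos, mul_comm]
      exact_mod_cast cnt1 hP L i
    calc (U1.card : ℝ) ≤ ∑ i : Fin e, (((Mx P).filter (fun p => L ≤ p i + 1)).card : ℝ) := by
          exact_mod_cast h1
      _ ≤ ∑ _i : Fin e, (P.card : ℝ) / L := sum_le_sum fun i _ => h2 i
      _ = _ := by simp
  have b2 : (U2.card : ℝ) ≤ (e : ℝ) ^ 2 * ((P.card : ℝ) / L) := by
    have h1 : U2.card ≤ ∑ t : Fin e × Fin e, ((Mx P).filter (fun p => Bl P t.1 t.2 p ∧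
        L ≤ (p t.1 + 1) * (p t.2 + 1))).card := by
      rw [hU2]; exact card_biUnion_le
    have h2 : ∀ t : Fin e × Fin e, (((Mx P).filter (fun p => Bl P t.1 t.2 p ∧
        L ≤ (p t.1 + 1) * (p t.2 + 1))).card : ℝ) ≤ (P.card : ℝ) / L := by
      intro t
      rw [le_div_iff₀ hLpos, mul_comm]
      exact_mod_cast cnt2 hP L t.1 t.2
    calc (U2.card : ℝ) ≤ ∑ t : Fin e × Fin e, (((Mx P).filter (fun p => Bl P t.1 t.2 p ∧
          L ≤ (p t.1 + 1) * (p t.2 + 1))).card : ℝ) := by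
          exact_mod_cast h1
      _ ≤ ∑ _t : Fin e × Fin e, (P.card : ℝ) / L := sum_le_sum fun i _ => h2 i
      _ = _ := by
        rw [sum_const, nsmul_eq_mul, card_univ, Fintype.card_prod, Fintype.card_fin]
        push_cast
        ring
  have hLp : (0 : ℝ) ≤ (L : ℝ) ^ (e - 3) := by positivity
  have b3 : (U3.card : ℝ) ≤ (e : ℝ) ^ 3 * ((ε : ℝ) * (L : ℝ) ^ (e - 3)) := by
    have h1 : U3.card ≤ ∑ t ∈ T, ((Mx P).filter (fun p => Bl P t.1 t.2.1 p ∧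
        (∀ l, p l + 1 < L) ∧ p t.2.2 < ε)).card := by
      rw [hU3]; exact card_biUnion_le
    have h2 : ∀ t ∈ T, (((Mx P).filter (fun p => Bl P t.1 t.2.1 p ∧
        (∀ l, p l + 1 < L) ∧ p t.2.2 < ε)).card : ℝ) ≤ (ε : ℝ) * (L : ℝ) ^ (e - 3) := by
      intro t ht
      rw [hT, mem_filter] at ht
      exact_mod_cast cnt3 hP L ε ht.2.1 ht.2.2.1 ht.2.2.2
    calc (U3.card : ℝ) ≤ ∑ t ∈ T, (((Mx P).filter (fun p => Bl P t.1 t.2.1 p ∧
          (∀ l, p l + 1 < L) ∧ p t.2.2 < ε)).card : ℝ) := by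
          exact_mod_cast h1
      _ ≤ ∑ _t ∈ T, (ε : ℝ) * (L : ℝ) ^ (e - 3) := sum_le_sum h2
      _ = (T.card : ℝ) * ((ε : ℝ) * (L : ℝ) ^ (e - 3)) := by simp
      _ ≤ _ := mul_le_mul_of_nonneg_right hTc (by positivity)
  have b4 : (U4.card : ℝ) ≤ (e : ℝ) ^ 3 * (L : ℝ) ^ (e - 3) := by
    have h1 : U4.card ≤ ∑ t ∈ T, ((Mx P).filter (fun p => Bl P t.1 t.2.1 p ∧
        (∀ l, p l + 1 < L) ∧ p t.2.2 = F t.2.2 - 1)).card := by
      rw [hU4]; exact card_biUnion_le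
    have h2 : ∀ t ∈ T, (((Mx P).filter (fun p => Bl P t.1 t.2.1 p ∧
        (∀ l, p l + 1 < L) ∧ p t.2.2 = F t.2.2 - 1)).card : ℝ) ≤ (L : ℝ) ^ (e - 3) := by
      intro t ht
      rw [hT, mem_filter] at ht
      exact_mod_cast cnt4 hP L (F t.2.2 - 1) ht.2.1 ht.2.2.1 ht.2.2.2
    calc (U4.card : ℝ) ≤ ∑ t ∈ T, (((Mx P).filter (fun p => Bl P t.1 t.2.1 p ∧
          (∀ l, p l + 1 < L) ∧ p t.2.2 = F t.2.2 - 1)).card : ℝ) := by
          exact_mod_cast h1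
      _ ≤ ∑ _t ∈ T, (L : ℝ) ^ (e - 3) := sum_le_sum h2
      _ = (T.card : ℝ) * (L : ℝ) ^ (e - 3) := by simp
      _ ≤ _ := mul_le_mul_of_nonneg_right hTc hLp
  -- the sets `V_j`
  have hVsum : ∑ j : Fin e, (P.filter (fun x => x j < s ∧ ∀ k, k ≠ j → s ≤ x k)).card ≤
      P.card := by
    rw [← card_biUnion]
    · exact card_le_card (biUnion_subset.2 fun j _ => filter_subset _ _)
    · intro j _ j' _ hjj
      refine disjoint_left.2 fun x hx hx' => ?_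
      rw [mem_filter] at hx hx'
      have h1 := hx.2.1
      have h2 := hx'.2.2 j hjj
      omega
  have hc0 : 0 ≤ ((e : ℝ) - 2) / ((R : ℝ) + (e : ℝ) - 1) := by
    apply div_nonneg (by linarith)
    have : (0 : ℝ) ≤ R := Nat.cast_nonneg _
    linarith
  have b5 : (∑ j : Fin e, ((M j).card : ℝ)) ≤
      (e : ℝ) * ((e - 1 + R - 1).choose (e - 2) : ℝ) + ((e : ℝ) - 2) / ((R : ℝ) + (e : ℝ) - 1) *
        ((P.card : ℝ) - (e : ℝ) * ((e - 1 + R).choose (e - 1) : ℝ)) := by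
    have h1 : ∀ j : Fin e, ((M j).card : ℝ) ≤ ((e - 1 + R - 1).choose (e - 2) : ℝ) +
        ((e : ℝ) - 2) / ((R : ℝ) + (e : ℝ) - 1) *
        (((P.filter (fun x => x j < s ∧ ∀ k, k ≠ j → s ≤ x k)).card : ℝ) -
          ((e - 1 + R).choose (e - 1) : ℝ)) := by
      intro j
      have hMj : ∀ p, p ∈ M j → p ∈ Mx P ∧ p j < s ∧ (∀ k, k ≠ j → s ≤ p k) ∧
          Bl P (i₀ j) j p := by
        intro p hp
        rw [hM] at hp
        exact mem_filter.1 hp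
      refine height_max (by omega) hP (i := i₀ j) (j := j) (s := s) (M := M j) ?_ (hi₀ j) ?_ ?_ ?_ R
      · intro p hp
        have := (hMj p hp).1
        unfold Mx at this
        exact (mem_filter.1 this).1
      · intro p hp q hq hpq
        exact bl_mono hP (hMj p hp).1 (hMj q hq).1 (hMj p hp).2.2.2 hpq
      · intro p hp q hq hpq
        exact mx_anti hP (hMj p hp).1 (hMj q hq).1 hpq
      · intro p hp
        exact ⟨(hMj p hp).2.1, (hMj p hp).2.2.1⟩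
    refine (sum_le_sum fun j _ => h1 j).trans ?_
    rw [sum_add_distrib, ← mul_sum, sum_sub_distrib]
    simp only [sum_const, card_univ, Fintype.card_fin, nsmul_eq_mul]
    have h2 : (∑ j : Fin e, ((P.filter (fun x => x j < s ∧ ∀ k, k ≠ j → s ≤ x k)).card : ℝ)) ≤
        (P.card : ℝ) := by exact_mod_cast hVsum
    have h3 := mul_le_mul_of_nonneg_left (sub_le_sub_right h2
      ((e : ℝ) * ((e - 1 + R).choose (e - 1) : ℝ))) hc0
    linarith
  have hcard' : ((Mx P).card : ℝ) ≤ U1.card + (U2.card + (U3.card + (U4.card +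
      ∑ j, ((M j).card : ℝ)))) := by exact_mod_cast hcard
  have e1 : ((e : ℝ) + (e : ℝ) ^ 2) * (P.card : ℝ) / (L : ℝ) =
      (e : ℝ) * ((P.card : ℝ) / L) + (e : ℝ) ^ 2 * ((P.card : ℝ) / L) := by ring
  have e2 : (e : ℝ) ^ 3 * ((ε : ℝ) + 1) * (L : ℝ) ^ (e - 3) =
      (e : ℝ) ^ 3 * ((ε : ℝ) * (L : ℝ) ^ (e - 3)) + (e : ℝ) ^ 3 * (L : ℝ) ^ (e - 3) := by ring
  rw [e1, e2]
  linarith

end Pool.Agent.TH
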