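import Mathlib

/-!
# Definitions for the refined upper bound

`Mx P`: maximal elements.  `Bl P i j p`: direction `i` is blocked at `p` by an element outside `P` avoiding the coordinate `j`.
-/

namespace Pool.Agent.TH

open Finset

open Classical in
noncomputable def Mx {e : ℕ} (P : Finset (Fin e → ℕ)) : Finset (Fin e → ℕ) :=
  P.filter (fun p => ∀ i, p + Pi.single i 1 ∉ P)

def Bl {e : ℕ} (P : Finset (Fin e → ℕ)) (i j : Fin e) (p : Fin e → ℕ) : Prop :=
  i ≠ j ∧ ∃ g : Fin e → ℕ, g ∉ P ∧ g ≤ p + Pi.single i 1 ∧ g j = 0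

/-- at most one full-support minimal element of the complement -/
def OneFull {e : ℕ} (P : Finset (Fin e → ℕ)) : Prop :=
  ∀ F F' : Fin e → ℕ, (∀ i, 1 ≤ F i) → (∀ i, 1 ≤ F' i) → F ∉ P → F' ∉ P →
    (∀ i, F - Pi.single i 1 ∈ P) → (∀ i, F' - Pi.single i 1 ∈ P) → F = F'

end Pool.Agent.TH
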