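import Mathlib

/-!
# The number of maximal elements of an order ideal (LYM inequality for multisets)

`ι` a finite type with `n` elements, `Q` a finite lower set of `ι → ℕ`, `|p| = ∑ p i`.

`lym`: `#max Q ≤ ∑_{p ∈ Q} (n-1) / (|p| + n - 1)`, `n ≥ 2`.
Proof.  Let `Q_d = {p ∈ Q | |p| = d}`, `N_d` the non-maximal elements of `Q_d`.  Count pairs `(p, i)`, `p ∈ Q_{d+1}`, `p i ≥ 1`, with
weight `p i`: the total is `(d+1) #Q_{d+1}`.  Map to `q = p - e_i ∈ N_d` (`q` is not maximal); for fixed `q` the total weight is at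
most `∑_i (q i + 1) = d + n`.  So `(d+1) #Q_{d+1} ≤ (d+n) #N_d`, i.e.
`#max_d = #Q_d - #N_d ≤ #Q_d - (d+1)/(d+n) #Q_{d+1}`; sum over `d`: `#max ≤ #Q_0 + ∑_{d≥1} #Q_d (1 - d/(d+n-1))`.
(Slicker: `#(Q minus max) = ∑_{q not max} 1 ≥ ∑_{q not max} ∑_i [q + e_i ∈ Q] (q i + 1) / (|q| + n)
= ∑_{p ∈ Q} ∑_{i, p i ≥ 1} p i / (|p| - 1 + n) = ∑_{p ∈ Q} |p| / (|p| + n - 1)`, reindex the pairs `(q, i)` with `q + e_i ∈ Q` by
`(p, i) = (q + e_i, i)` with `p i ≥ 1`; `p = 0` contributes `0`.)

`max_le`: with `f d = (n-1)/(d+n-1)` (decreasing):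
`∑_{p∈Q} f |p| ≤ ∑_{|p| ≤ R} (f |p| - f (R+1)) + f (R+1) #Q`; the number of `p` with `|p| = d` is `C(n+d-1, n-1)`, and
`C(n+d-1,n-1) f d = C(n+d-2, n-2)`; `∑_{d ≤ R} C(n+d-2, n-2) = C(n+R-1, n-1)`; `#{|p| ≤ R} = C(n+R, n)`.
(E.g. put `B_R = {p | |p| ≤ R}`: itself a finite lower set.  Number of `p : ι → ℕ` with `∑ p = d`: `Finset.piAntidiag`,
`Sym.card_sym_eq_choose`, or `Finset.Nat.card_antidiagonalTuple`; any proof.)
-/

namespace Pool.Agent.TH

open Finset

private theorem shift_sum {ι : Type*} [Fintype ι] [DecidableEq ι] (Q : Finset (ι → ℕ))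
    (hQ : IsLowerSet (Q : Set (ι → ℕ))) (i : ι) (F : (ι → ℕ) → ℝ) (hF : ∀ p, p i = 0 → F p = 0) :
    ∑ q ∈ Q, (if q + Pi.single i 1 ∈ Q then F (q + Pi.single i 1) else 0) = ∑ p ∈ Q, F p := by
  rw [← Finset.sum_filter]
  have h1 : ∑ p ∈ Q, F p = ∑ p ∈ Q.filter (fun p => p i ≠ 0), F p := by
    symm
    apply Finset.sum_subset (Finset.filter_subset _ _)
    intro p hp hnp
    apply hF
    by_contra h0
    exact hnp (Finset.mem_filter.2 ⟨hp, h0⟩)
  rw [h1]
  refine Finset.sum_nbij' (fun q => q + Pi.single i 1) (fun p => p - Pi.single i 1) ?_ ?_ ?_ ?_ ?_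
  · intro q hq
    rw [Finset.mem_filter] at hq ⊢
    refine ⟨hq.2, ?_⟩
    show q i + (Pi.single i 1 : ι → ℕ) i ≠ 0
    rw [Pi.single_eq_same]
    omega
  · intro p hp
    rw [Finset.mem_filter] at hp ⊢
    have h2 : p - Pi.single i 1 + Pi.single i 1 = p := by
      funext j
      show p j - (Pi.single i 1 : ι → ℕ) j + (Pi.single i 1 : ι → ℕ) j = p j
      by_cases hj : j = i
      · subst hj
        rw [Pi.single_eq_same]
        have := hp.2
        omega
      · rw [Pi.single_eq_of_ne hj]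
        omega
    rw [h2]
    refine ⟨?_, hp.1⟩
    have h3 : p - Pi.single i 1 ≤ p := by
      intro j
      exact Nat.sub_le _ _
    exact hQ h3 hp.1
  · intro q _
    funext j
    show q j + (Pi.single i 1 : ι → ℕ) j - (Pi.single i 1 : ι → ℕ) j = q j
    omega
  · intro p hp
    rw [Finset.mem_filter] at hp
    funext j
    show p j - (Pi.single i 1 : ι → ℕ) j + (Pi.single i 1 : ι → ℕ) j = p j
    by_cases hj : j = i
    · subst hj
      rw [Pi.single_eq_same]
      have := hp.2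
      omega
    · rw [Pi.single_eq_of_ne hj]
      omega
  · intro q _
    rfl

private theorem sum_single {ι : Type*} [Fintype ι] [DecidableEq ι] (q : ι → ℕ) (i : ι) :
    ∑ j, (q + Pi.single i 1 : ι → ℕ) j = (∑ j, q j) + 1 := by
  have h1 : ∀ j, (q + Pi.single i 1 : ι → ℕ) j = q j + (Pi.single i 1 : ι → ℕ) j := fun j => rfl
  simp only [h1]
  rw [Finset.sum_add_distrib]
  congr 1
  rw [Finset.sum_pi_single' i 1 univ]
  simp

theorem lym {ι : Type*} [Fintype ι] [DecidableEq ι] (hn : 2 ≤ Fintype.card ι) (Q : Finset (ι → ℕ))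
    (hQ : IsLowerSet (Q : Set (ι → ℕ))) :
    ((Q.filter (fun p => ∀ i, p + Pi.single i 1 ∉ Q)).card : ℝ) ≤
      ∑ p ∈ Q, ((Fintype.card ι : ℝ) - 1) / (((∑ i, p i : ℕ) : ℝ) + (Fintype.card ι : ℝ) - 1) := by
  set n : ℝ := (Fintype.card ι : ℝ) with hnd
  have hn2 : (2 : ℝ) ≤ n := by
    rw [hnd]
    exact_mod_cast hn
  set A : (ι → ℕ) → ℝ := fun p => ((∑ i, p i : ℕ) : ℝ) with hA
  have hA0 : ∀ p, 0 ≤ A p := fun p => Nat.cast_nonneg _
  have hA1 : ∀ p i, A (p + Pi.single i 1) = A p + 1 := by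
    intro p i
    show ((∑ j, (p + Pi.single i 1 : ι → ℕ) j : ℕ) : ℝ) = ((∑ j, p j : ℕ) : ℝ) + 1
    rw [sum_single]
    push_cast
    ring
  -- the claim
  have key : ∑ p ∈ Q, A p / (A p + n - 1) ≤
      ∑ p ∈ Q, (if ∀ i, p + Pi.single i 1 ∉ Q then (0 : ℝ) else 1) := by
    have e1 : ∀ p : ι → ℕ, A p / (A p + n - 1) = ∑ i, (p i : ℝ) / (A p + n - 1) := by
      intro p
      rw [← Finset.sum_div]
      congr 1
      show ((∑ i, p i : ℕ) : ℝ) = _
      push_cast
      rfl
    calc ∑ p ∈ Q, A p / (A p + n - 1) = ∑ p ∈ Q, ∑ i, (p i : ℝ) / (A p + n - 1) :=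
          Finset.sum_congr rfl fun p _ => e1 p
      _ = ∑ i, ∑ p ∈ Q, (p i : ℝ) / (A p + n - 1) := Finset.sum_comm
      _ = ∑ i, ∑ q ∈ Q, (if q + Pi.single i 1 ∈ Q then
            (((q + Pi.single i 1 : ι → ℕ) i : ℕ) : ℝ) / (A (q + Pi.single i 1) + n - 1) else 0) := by
          refine Finset.sum_congr rfl fun i _ => ?_
          exact (shift_sum Q hQ i (fun p => (p i : ℝ) / (A p + n - 1)) (fun p hp => by
            show ((p i : ℕ) : ℝ) / _ = 0
            rw [hp, Nat.cast_zero, zero_div])).symm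
      _ = ∑ q ∈ Q, ∑ i, (if q + Pi.single i 1 ∈ Q then
            (((q + Pi.single i 1 : ι → ℕ) i : ℕ) : ℝ) / (A (q + Pi.single i 1) + n - 1) else 0) := Finset.sum_comm
      _ ≤ ∑ p ∈ Q, (if ∀ i, p + Pi.single i 1 ∉ Q then (0 : ℝ) else 1) := by
          refine Finset.sum_le_sum fun q _ => ?_
          split_ifs with hmax
          · apply le_of_eq
            apply Finset.sum_eq_zero
            intro i _
            exact if_neg (hmax i)
          · have hpos : 0 < A q + n := by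
              have := hA0 q
              linarith
            calc ∑ i, (if q + Pi.single i 1 ∈ Q then
                  (((q + Pi.single i 1 : ι → ℕ) i : ℕ) : ℝ) / (A (q + Pi.single i 1) + n - 1) else 0)
                ≤ ∑ i, ((q i : ℝ) + 1) / (A q + n) := by
                  refine Finset.sum_le_sum fun i _ => ?_
                  split_ifs with hin
                  · rw [hA1]
                    have e2 : (((q + Pi.single i 1 : ι → ℕ) i : ℕ) : ℝ) = (q i : ℝ) + 1 := by
                      have : (q + Pi.single i 1 : ι → ℕ) i = q i + 1 := by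
                        show q i + (Pi.single i 1 : ι → ℕ) i = q i + 1
                        rw [Pi.single_eq_same]
                      rw [this]
                      push_cast
                      ring
                    rw [e2]
                    apply le_of_eq
                    congr 1
                    ring
                  · positivity
              _ = 1 := by
                  rw [← Finset.sum_div, Finset.sum_add_distrib, div_eq_one_iff_eq hpos.ne']
                  show _ = ((∑ i, q i : ℕ) : ℝ) + n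
                  push_cast
                  rw [Finset.sum_const, Finset.card_univ, nsmul_eq_mul, mul_one]
  have hcard : ((Q.filter (fun p => ∀ i, p + Pi.single i 1 ∉ Q)).card : ℝ) =
      ∑ p ∈ Q, (1 - (if ∀ i, p + Pi.single i 1 ∉ Q then (0 : ℝ) else 1)) := by
    rw [Finset.card_filter]
    push_cast
    refine Finset.sum_congr rfl fun p _ => ?_
    split_ifs <;> norm_num
  rw [hcard]
  have e3 : ∀ p : ι → ℕ, (n - 1) / (A p + n - 1) = 1 - A p / (A p + n - 1) := by
    intro p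
    have : A p + n - 1 ≠ 0 := by
      have := hA0 p
      intro h0
      linarith
    rw [eq_sub_iff_add_eq, ← add_div, div_eq_one_iff_eq this]
    ring
  calc ∑ p ∈ Q, (1 - (if ∀ i, p + Pi.single i 1 ∉ Q then (0 : ℝ) else 1))
      = ∑ p ∈ Q, (1 : ℝ) - ∑ p ∈ Q, (if ∀ i, p + Pi.single i 1 ∉ Q then (0 : ℝ) else 1) :=
        Finset.sum_sub_distrib _ _
    _ ≤ ∑ p ∈ Q, (1 : ℝ) - ∑ p ∈ Q, A p / (A p + n - 1) := by linarith
    _ = ∑ p ∈ Q, (1 - A p / (A p + n - 1)) := (Finset.sum_sub_distrib _ _).symm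
    _ = ∑ p ∈ Q, (n - 1) / (A p + n - 1) := Finset.sum_congr rfl fun p _ => (e3 p).symm

private theorem card_level {ι : Type*} [Fintype ι] [DecidableEq ι] (d : ℕ) :
    (Finset.piAntidiag (univ : Finset ι) d).card = (Fintype.card ι + d - 1).choose d := by
  rw [← Sym.card_sym_eq_choose (α := ι) d, ← Nat.card_eq_fintype_card,
    Nat.card_congr (Sym.equivNatSumOfFintype ι d), ← Fintype.card_coe, ← Nat.card_eq_fintype_card]
  apply Nat.card_congr
  refine Equiv.subtypeEquivRight fun f => ?_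
  rw [Finset.mem_piAntidiag]
  constructor
  · intro h
    exact h.1
  · intro h
    exact ⟨h, fun i _ => Finset.mem_univ i⟩

private theorem level_sum (j R : ℕ) (c : ℝ) :
    ∑ d ∈ range (R + 1), ((j + 1 + d).choose d : ℝ) * (((j : ℝ) + 1) / ((d : ℝ) + j + 1) - c) =
      ((j + 1 + R).choose (j + 1) : ℝ) - c * ((j + 2 + R).choose (j + 2) : ℝ) := by
  have h1 : ∀ d : ℕ, ((j + 1 + d).choose d : ℝ) * (((j : ℝ) + 1) / ((d : ℝ) + j + 1) - c) =
      ((d + j).choose j : ℝ) - c * ((d + (j + 1)).choose (j + 1) : ℝ) := by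
    intro d
    have e1 : (j + 1 + d).choose d = (d + (j + 1)).choose (j + 1) := by
      have h2 : (d + (j + 1)).choose (j + 1) = (d + (j + 1)).choose d := Nat.choose_symm_add.symm
      rw [h2, Nat.add_comm]
    have e2 : (d + j + 1) * (d + j).choose j = (d + (j + 1)).choose (j + 1) * (j + 1) := by
      have := Nat.add_one_mul_choose_eq (d + j) j
      simpa [Nat.add_assoc] using this
    have e3 : ((d : ℝ) + j + 1) * ((d + j).choose j : ℝ) =
        ((d + (j + 1)).choose (j + 1) : ℝ) * ((j : ℝ) + 1) := by exact_mod_cast e2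
    rw [e1, mul_sub]
    have hd : (d : ℝ) + j + 1 ≠ 0 := by positivity
    have e4 : ((d + (j + 1)).choose (j + 1) : ℝ) * (((j : ℝ) + 1) / ((d : ℝ) + j + 1)) =
        ((d + j).choose j : ℝ) := by
      rw [← mul_div_assoc, ← e3]
      field_simp
    rw [e4]
    ring
  rw [Finset.sum_congr rfl fun d _ => h1 d, Finset.sum_sub_distrib, ← Finset.mul_sum]
  have h3 := Nat.sum_range_add_choose R j
  have h4 := Nat.sum_range_add_choose R (j + 1)
  have h3' : ∑ d ∈ range (R + 1), ((d + j).choose j : ℝ) = ((j + 1 + R).choose (j + 1) : ℝ) := by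
    have : j + 1 + R = R + j + 1 := by omega
    rw [this]
    exact_mod_cast h3
  have h4' : ∑ d ∈ range (R + 1), ((d + (j + 1)).choose (j + 1) : ℝ) =
      ((j + 2 + R).choose (j + 2) : ℝ) := by
    have : j + 2 + R = R + (j + 1) + 1 := by omega
    rw [this]
    exact_mod_cast h4
  rw [h3', h4']

theorem max_le {ι : Type*} [Fintype ι] [DecidableEq ι] (hn : 2 ≤ Fintype.card ι) (Q : Finset (ι → ℕ))
    (hQ : IsLowerSet (Q : Set (ι → ℕ))) (R : ℕ) :
    ((Q.filter (fun p => ∀ i, p + Pi.single i 1 ∉ Q)).card : ℝ) ≤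
      ((Fintype.card ι + R - 1).choose (Fintype.card ι - 1) : ℝ) +
      ((Fintype.card ι : ℝ) - 1) / ((R : ℝ) + (Fintype.card ι : ℝ)) *
        ((Q.card : ℝ) - ((Fintype.card ι + R).choose (Fintype.card ι) : ℝ)) := by
  obtain ⟨j, hj⟩ : ∃ j, Fintype.card ι = j + 2 := ⟨Fintype.card ι - 2, by omega⟩
  have hjr : (Fintype.card ι : ℝ) = (j : ℝ) + 2 := by
    rw [hj]
    push_cast
    ring
  set c : ℝ := ((Fintype.card ι : ℝ) - 1) / ((R : ℝ) + (Fintype.card ι : ℝ)) with hc
  have hcj : c = ((j : ℝ) + 1) / ((R : ℝ) + j + 2) := by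
    rw [hc, hjr]
    congr 1
    · ring
    · ring
  set g : (ι → ℕ) → ℝ := fun p => ((j : ℝ) + 1) / (((∑ i, p i : ℕ) : ℝ) + j + 1) - c with hg
  have h1 := lym hn Q hQ
  have e1 : ∑ p ∈ Q, ((Fintype.card ι : ℝ) - 1) /
      (((∑ i, p i : ℕ) : ℝ) + (Fintype.card ι : ℝ) - 1) = ∑ p ∈ Q, g p + c * (Q.card : ℝ) := by
    have e2 : ∀ p : ι → ℕ, ((Fintype.card ι : ℝ) - 1) /
        (((∑ i, p i : ℕ) : ℝ) + (Fintype.card ι : ℝ) - 1) = g p + c := by
      intro p
      show _ = ((j : ℝ) + 1) / (((∑ i, p i : ℕ) : ℝ) + j + 1) - c + c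
      rw [sub_add_cancel, hjr]
      congr 1
      · ring
      · ring
    rw [Finset.sum_congr rfl fun p _ => e2 p, Finset.sum_add_distrib, Finset.sum_const,
      nsmul_eq_mul, mul_comm c]
  have hgneg : ∀ p : ι → ℕ, R + 1 ≤ ∑ i, p i → g p ≤ 0 := by
    intro p hp
    have hp' : (R : ℝ) + 1 ≤ ((∑ i, p i : ℕ) : ℝ) := by exact_mod_cast hp
    show ((j : ℝ) + 1) / (((∑ i, p i : ℕ) : ℝ) + j + 1) - c ≤ 0
    rw [hcj, sub_nonpos]
    apply div_le_div_of_nonneg_left (by positivity) (by positivity)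
    linarith
  have hgpos : ∀ p : ι → ℕ, ∑ i, p i ≤ R → 0 ≤ g p := by
    intro p hp
    have hp' : ((∑ i, p i : ℕ) : ℝ) ≤ (R : ℝ) := by exact_mod_cast hp
    show 0 ≤ ((j : ℝ) + 1) / (((∑ i, p i : ℕ) : ℝ) + j + 1) - c
    rw [hcj, sub_nonneg]
    apply div_le_div_of_nonneg_left (by positivity) (by positivity)
    linarith
  set B : Finset (ι → ℕ) := (range (R + 1)).biUnion (fun d => Finset.piAntidiag univ d) with hB
  have hmemB : ∀ p : ι → ℕ, p ∈ B ↔ ∑ i, p i ≤ R := by
    intro p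
    rw [hB, Finset.mem_biUnion]
    constructor
    · rintro ⟨d, hd, hp⟩
      rw [Finset.mem_piAntidiag] at hp
      rw [Finset.mem_range] at hd
      have h5 : ∑ i, p i = d := hp.1
      omega
    · intro hp
      refine ⟨∑ i, p i, Finset.mem_range.2 (by omega), ?_⟩
      rw [Finset.mem_piAntidiag]
      exact ⟨rfl, fun i _ => Finset.mem_univ i⟩
  have h2 : ∑ p ∈ Q, g p ≤ ∑ p ∈ B, g p := by
    calc ∑ p ∈ Q, g p ≤ ∑ p ∈ Q ∩ B, g p := by
          rw [← Finset.sum_inter_add_sum_sdiff Q B g]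
          have : ∑ p ∈ Q \ B, g p ≤ 0 := by
            apply Finset.sum_nonpos
            intro p hp
            rw [Finset.mem_sdiff, hmemB] at hp
            exact hgneg p (by omega)
          linarith
      _ ≤ ∑ p ∈ B, g p := by
          apply Finset.sum_le_sum_of_subset_of_nonneg Finset.inter_subset_right
          intro p hp _
          exact hgpos p ((hmemB p).1 hp)
  have h3 : ∑ p ∈ B, g p = ∑ d ∈ range (R + 1),
      ((j + 1 + d).choose d : ℝ) * (((j : ℝ) + 1) / ((d : ℝ) + j + 1) - c) := by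
    rw [hB, Finset.sum_biUnion]
    · refine Finset.sum_congr rfl fun d _ => ?_
      have : ∀ p ∈ Finset.piAntidiag (univ : Finset ι) d,
          g p = ((j : ℝ) + 1) / ((d : ℝ) + j + 1) - c := by
        intro p hp
        rw [Finset.mem_piAntidiag] at hp
        show ((j : ℝ) + 1) / (((∑ i, p i : ℕ) : ℝ) + j + 1) - c = _
        have h5 : ∑ i, p i = d := hp.1
        rw [h5]
      rw [Finset.sum_congr rfl this, Finset.sum_const, card_level, nsmul_eq_mul]
      congr 3
      rw [hj]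
      omega
    · intro d _ d' _ hdd
      show Disjoint (Finset.piAntidiag univ d) (Finset.piAntidiag univ d')
      rw [Finset.disjoint_left]
      intro p hp hp'
      rw [Finset.mem_piAntidiag] at hp hp'
      exact hdd (hp.1.symm.trans hp'.1)
  rw [level_sum] at h3
  have e5 : Fintype.card ι + R - 1 = j + 1 + R := by omega
  have e6 : Fintype.card ι - 1 = j + 1 := by omega
  have e7 : (Fintype.card ι + R).choose (Fintype.card ι) = (j + 2 + R).choose (j + 2) := by rw [hj]
  rw [e5, e6, e7]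
  calc ((Q.filter (fun p => ∀ i, p + Pi.single i 1 ∉ Q)).card : ℝ)
      ≤ ∑ p ∈ Q, g p + c * (Q.card : ℝ) := by rw [← e1]; exact h1
    _ ≤ (((j + 1 + R).choose (j + 1) : ℝ) - c * ((j + 2 + R).choose (j + 2) : ℝ)) +
        c * (Q.card : ℝ) := by
        rw [← h3]
        linarith
    _ = ((j + 1 + R).choose (j + 1) : ℝ) +
        c * ((Q.card : ℝ) - ((j + 2 + R).choose (j + 2) : ℝ)) := by ring

end Pool.Agent.TH
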