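import Pool.Agent.TH.Basic

/-!
# The remaining elements

Let `e ≥ 4`, `L ≤ s * s`, `s ≤ ε`, `i₀ : Fin e → Fin e` a choice of a direction `i₀ j ≠ j` for each `j`.  Let `p ∈ Mx P` be such that
* (a) `p l + 1 < L` for all `l`;
* (b) `Bl P i j p → (p i + 1) (p j + 1) < L`;
* (c) `Bl P i j p → ε ≤ p k` for all `k ≠ i, j`;
* (d) for every full-support `F ∉ P` with all `F - e_k ∈ P`: `Bl P i j p → p k + 1 ≠ F k` for all `k ≠ i, j`.
Then there is `j` with `p j < s`, `s ≤ p k` for all `k ≠ j`, and `Bl P (i₀ j) j p`.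

Proof.  By `bl_one` all directions `i` except at most one are good (`∃ j, Bl P i j p`).  Take a good `i` with `Bl P i j p`.  By (b)
`min (p i) (p j) + 1 < s`; let `j' ∈ {i, j}` with `p j' < s`.  As `e ≥ 4` there is a good `i' ∉ {i, j}` with `Bl P i' l p`.  By (c) all
coordinates except `i', l` are `≥ ε ≥ s > p j'`, so `j' ∈ {i', l}`, `i' ≠ j'`, so `l = j'`.  By (c) for `(i, j)`: `p i' ≥ ε`.  So `p k ≥ ε ≥ s` for all
`k ≠ j'`.  For every `k ≠ i', j'` the direction `k` is good: otherwise `bl_or` gives `F` with `F k = p k + 1`, contradiction to (d) with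
`Bl P i' j' p`.  So all directions `k ≠ j'` are good, in particular `i₀ j'`: `Bl P (i₀ j') l' p`, and by (c) all coordinates except
`i₀ j', l'` are `≥ ε > p j'`, so `j' = l'` (`i₀ j' ≠ j'`).
-/

namespace Pool.Agent.TH

open Finset

private theorem rem_two {e : ℕ} (he : 4 ≤ e) (a b : Fin e) :
    ∃ x y : Fin e, x ≠ y ∧ x ≠ a ∧ x ≠ b ∧ y ≠ a ∧ y ≠ b := by
  classical
  have h1 : 2 ≤ ((univ : Finset (Fin e)) \ {a, b}).card := by
    have h2 : ({a, b} : Finset (Fin e)).card ≤ 2 := card_le_two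
    have h3 := le_card_sdiff ({a, b} : Finset (Fin e)) univ
    rw [card_univ, Fintype.card_fin] at h3
    omega
  obtain ⟨x, hx, y, hy, hxy⟩ := one_lt_card.1 (Nat.lt_of_succ_le h1)
  rw [mem_sdiff, mem_insert, mem_singleton, not_or] at hx hy
  exact ⟨x, y, hxy, hx.2.1, hx.2.2, hy.2.1, hy.2.2⟩

theorem rem {e : ℕ} (he : 4 ≤ e) {P : Finset (Fin e → ℕ)} (hP : IsLowerSet (P : Set (Fin e → ℕ)))
    (hF : OneFull P) {L s ε : ℕ} (hL : L ≤ s * s) (hs : s ≤ ε) (i₀ : Fin e → Fin e)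
    (hi₀ : ∀ j, i₀ j ≠ j) {p : Fin e → ℕ} (hp : p ∈ Mx P)
    (hb : ∀ i j, Bl P i j p → (p i + 1) * (p j + 1) < L)
    (hc : ∀ i j, Bl P i j p → ∀ k, k ≠ i → k ≠ j → ε ≤ p k)
    (hd : ∀ F : Fin e → ℕ, (∀ k, 1 ≤ F k) → F ∉ P → (∀ k, F - Pi.single k 1 ∈ P) →
      ∀ i j, Bl P i j p → ∀ k, k ≠ i → k ≠ j → p k + 1 ≠ F k) :
    ∃ j, p j < s ∧ (∀ k, k ≠ j → s ≤ p k) ∧ Bl P (i₀ j) j p := by
  -- a good direction outside two given coordinates
  have good : ∀ a b : Fin e, ∃ i, i ≠ a ∧ i ≠ b ∧ ∃ j, Bl P i j p := by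
    intro a b
    obtain ⟨x, y, hxy, h1, h2, h3, h4⟩ := rem_two he a b
    rcases bl_one hP hF hp hxy with h | h
    · exact ⟨x, h1, h2, h⟩
    · exact ⟨y, h3, h4, h⟩
  have h0 : 0 < e := by omega
  obtain ⟨i, -, -, j, hij⟩ := good ⟨0, h0⟩ ⟨0, h0⟩
  obtain ⟨j', hj', hj's⟩ : ∃ j', (j' = i ∨ j' = j) ∧ p j' < s := by
    have h1 := (hb i j hij).trans_le hL
    by_contra hcon
    push Not at hcon
    have h2 := hcon i (Or.inl rfl)
    have h3 := hcon j (Or.inr rfl)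
    have h4 : s * s ≤ (p i + 1) * (p j + 1) := Nat.mul_le_mul (by omega) (by omega)
    omega
  obtain ⟨i', hi'i, hi'j, l, hl⟩ := good i j
  have hi'j' : i' ≠ j' := by
    rcases hj' with h | h
    · rw [h]; exact hi'i
    · rw [h]; exact hi'j
  have hlj' : j' = l := by
    by_contra hne
    have := hc i' l hl j' hi'j'.symm hne
    omega
  rw [← hlj'] at hl
  have hεi' : ε ≤ p i' := hc i j hij i' hi'i hi'j
  have hall : ∀ k, k ≠ j' → ε ≤ p k := by
    intro k hk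
    by_cases hki : k = i'
    · rw [hki]; exact hεi'
    · exact hc i' j' hl k hki hk
  refine ⟨j', hj's, fun k hk => hs.trans (hall k hk), ?_⟩
  by_cases hi : i₀ j' = i'
  · rw [hi]; exact hl
  · rcases bl_or hP hp (i₀ j') with ⟨l', h⟩ | ⟨F, hF1, hF2, hF3, -, hF5⟩
    · have : j' = l' := by
        by_contra hne
        have := hc _ l' h j' (hi₀ j').symm hne
        omega
      rw [← this] at h
      exact h
    · exact absurd hF5.symm (hd F hF1 hF2 hF3 i' j' hl (i₀ j') hi (hi₀ j'))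

end Pool.Agent.TH
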