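import Pool.Agent.TH.Comb2
import Pool.Agent.TG.UpperG

/-!
# The refined bound for numerical semigroups

`type_le2`: for a numerical semigroup with `edim = e + 1`, `mult = m`, `e ≥ 4`: `exists_apery`, `exists_nf`, `full_unique`, `comb2`
(imitate `TG/UpperG.lean`, `type_le`; `Mx P` is the filter in `exists_nf`).
-/

namespace Pool.Agent.TH

open Pool.Agent.Hhelper4.NS

theorem type_le2 {Γ : AddSubmonoid ℕ} {e m : ℕ} (he : 4 ≤ e) (hΓ : IsNumerical Γ)
    (hed : edim Γ = e + 1) (hm : mult Γ = m) (hm0 : 1 ≤ m) {L s ε : ℕ} (hL1 : 1 ≤ L)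
    (hL : L ≤ s * s) (hs : s ≤ ε) (R : ℕ) :
    (type Γ : ℝ) ≤ ((e : ℝ) + (e : ℝ) ^ 2) * (m : ℝ) / (L : ℝ) +
      (e : ℝ) ^ 3 * ((ε : ℝ) + 1) * (L : ℝ) ^ (e - 3) +
      ((e : ℝ) * ((e - 1 + R - 1).choose (e - 2) : ℝ) + ((e : ℝ) - 2) / ((R : ℝ) + (e : ℝ) - 1) *
        ((m : ℝ) - (e : ℝ) * ((e - 1 + R).choose (e - 1) : ℝ))) := by
  classical
  obtain ⟨w, h, rfl⟩ := exists_apery hΓ hm (by omega)
  have : NeZero m := ⟨by omega⟩
  have hed' := edim_sg h
  rw [hed] at hed'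
  set A : Finset (ZMod m) := Finset.univ.filter (fun x : ZMod m => IsAtom w x) with hA
  have hc : A.card = e := by
    have h3 : (Finset.univ.filter (fun x : ZMod m => IsAtom w x)).card + 1 = e + 1 := by
      rw [hed']
    rw [hA]
    omega
  let E : A ≃ Fin e := A.equivFinOfCardEq hc
  let a : Fin e → ZMod m := fun i => ((E.symm i : A) : ZMod m)
  have ha : ∀ x, IsAtom w x → ∃ i, a i = x := by
    intro x hx
    have hxA : x ∈ A := by
      rw [hA]
      exact Finset.mem_filter.2 ⟨Finset.mem_univ _, hx⟩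
    refine ⟨E ⟨x, hxA⟩, ?_⟩
    show ((E.symm (E ⟨x, hxA⟩) : A) : ZMod m) = x
    rw [Equiv.symm_apply_apply]
  obtain ⟨P, hP, hcard, inj, surj, hmax⟩ := Pool.Agent.TG.exists_nf h a ha
  have hF : OneFull P := Pool.Agent.TG.full_unique a P hP inj surj
  have hcomb := comb2 he hP hF hL1 hL hs R
  rw [hcard] at hcomb
  have hty := type_sg h
  rw [hty]
  refine le_trans ?_ hcomb
  have h4 : (Finset.univ.filter (fun x : ZMod m => IsMax w x)).card ≤ (Mx P).card := by
    refine hmax.trans (le_of_eq ?_)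
    unfold Mx
    congr 1
  exact_mod_cast h4

end Pool.Agent.TH
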